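import Pool.Agent.KS6_99.IS.Tensor

/-!
The Hamiltonian of four copies of the ferromagnetic quantum Ising model, two of them in one
longitudinal field and two of them in a smaller one, is (up to the sign) nonnegative in the basis.
-/

set_option autoImplicit false
set_option linter.unusedSectionVars false

open Finset

namespace Pool.Agent.KS6_99.IS

variable {V : Type*} [Fintype V] [DecidableEq V]

/-- the diagonal part -/
def Dg (J : V → V → ℝ) (b : V → ℝ) (s : V → Fin 2) : ℝ :=
  ∑ x, ∑ y, J x y * (sg (s x) * sg (s y) : ℤ) + ∑ x, b x * (sg (s x) : ℤ)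

/-- flip the spin at `x` -/
def fp (x : V) (s : V → Fin 2) : V → Fin 2 := Function.update s x (ot (s x))

/-- flip the spin at `x` in the copy `i` -/
def fq (x : V) (i : Fin 4) (k : V → K) : V → K := Function.update k x (fl i (k x))

/-- four copies: minus the Hamiltonian -/
noncomputable def M4 (J : V → V → ℝ) (g b b' : V → ℝ) (k k' : V → K) : ℝ :=
  (if k = k' then Dg J b' (fun x => cp 0 (k x)) + Dg J b' (fun x => cp 1 (k x)) +
      Dg J b (fun x => cp 2 (k x)) + Dg J b (fun x => cp 3 (k x)) else 0) +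
    ∑ x, g x * ∑ i, (if k' = fq x i k then 1 else 0)

theorem diag1 (φ : K → ℤ) (h1 : ∀ l l' : K, 0 ≤ ∑ k : K, B l k * φ k * B l' k) (x : V)
    (l l' : V → K) : 0 ≤ ∑ k : V → K, BB l k * φ (k x) * BB l' k := by
  have h : ∀ k : V → K, BB l k * φ (k x) * BB l' k =
      ∏ z, (B (l z) (k z) * (if z = x then φ (k z) else 1) * B (l' z) (k z)) := by
    intro k
    simp only [BB, Finset.prod_mul_distrib, Finset.prod_ite_eq', mem_univ, if_true]
  rw [Finset.sum_congr rfl fun k _ => h k,
    sum_prod (fun z a => B (l z) a * (if z = x then φ a else 1) * B (l' z) a)]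
  refine Finset.prod_nonneg fun z _ => ?_
  by_cases hz : z = x
  · simp only [if_pos hz]
    exact h1 _ _
  · simp only [if_neg hz, mul_one]
    rw [orth]
    split_ifs <;> norm_num

theorem diag2 (φ : K → ℤ) (h1 : ∀ l l' : K, 0 ≤ ∑ k : K, B l k * φ k * B l' k)
    (h2 : ∀ l l' : K, 0 ≤ ∑ k : K, B l k * (φ k * φ k) * B l' k) (x y : V)
    (l l' : V → K) : 0 ≤ ∑ k : V → K, BB l k * (φ (k x) * φ (k y)) * BB l' k := by
  have h : ∀ k : V → K, BB l k * (φ (k x) * φ (k y)) * BB l' k =
      ∏ z, (B (l z) (k z) * ((if z = x then φ (k z) else 1) * (if z = y then φ (k z) else 1)) *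
        B (l' z) (k z)) := by
    intro k
    simp only [BB, Finset.prod_mul_distrib, Finset.prod_ite_eq', mem_univ, if_true]
  rw [Finset.sum_congr rfl fun k _ => h k,
    sum_prod (fun z a => B (l z) a * ((if z = x then φ a else 1) * (if z = y then φ a else 1)) *
      B (l' z) a)]
  refine Finset.prod_nonneg fun z _ => ?_
  by_cases hz : z = x
  · by_cases hy : z = y
    · simp only [if_pos hz, if_pos hy]
      exact h2 _ _
    · simp only [if_pos hz, if_neg hy, mul_one]
      exact h1 _ _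
  · by_cases hy : z = y
    · simp only [if_neg hz, if_pos hy, one_mul]
      exact h1 _ _
    · simp only [if_neg hz, if_neg hy, mul_one]
      rw [orth]
      split_ifs <;> norm_num

theorem BB_fq (x : V) (l k : V → K) :
    ∑ i, BB l (fq x i k) = ∏ z, (if z = x then ∑ i, B (l z) (fl i (k z)) else B (l z) (k z)) := by
  rw [← Finset.mul_prod_erase univ _ (mem_univ x), if_pos rfl, Finset.sum_mul]
  refine Finset.sum_congr rfl fun i _ => ?_
  unfold BB fq
  rw [← Finset.mul_prod_erase univ _ (mem_univ x), Function.update_self]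
  congr 1
  refine Finset.prod_congr rfl fun z hz => ?_
  have : z ≠ x := (Finset.mem_erase.1 hz).1
  rw [if_neg this, Function.update_of_ne this]

theorem flips (x : V) (l l' : V → K) :
    0 ≤ ∑ k : V → K, BB l k * ∑ i, BB l' (fq x i k) := by
  have h : ∀ k : V → K, BB l k * ∑ i, BB l' (fq x i k) =
      ∏ z, (B (l z) (k z) * (if z = x then ∑ i, B (l' z) (fl i (k z)) else B (l' z) (k z))) := by
    intro k
    rw [BB_fq]
    simp only [BB, Finset.prod_mul_distrib]
  rw [Finset.sum_congr rfl fun k _ => h k,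
    sum_prod (fun z a => B (l z) a * (if z = x then ∑ i, B (l' z) (fl i a) else B (l' z) a))]
  refine Finset.prod_nonneg fun z _ => ?_
  by_cases hz : z = x
  · simp only [if_pos hz]
    exact nn_fl _ _
  · simp only [if_neg hz]
    rw [orth]
    split_ifs <;> norm_num

/-- the diagonal part in the rotated variables -/
theorem diag_rot (J : V → V → ℝ) (b b' : V → ℝ) (k : V → K) :
    Dg J b' (fun x => cp 0 (k x)) + Dg J b' (fun x => cp 1 (k x)) +
      Dg J b (fun x => cp 2 (k x)) + Dg J b (fun x => cp 3 (k x)) =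
    ∑ x, ∑ y, J x y * ((al (k x) * al (k y) : ℤ) + (be (k x) * be (k y) : ℤ) +
      (ga (k x) * ga (k y) : ℤ) + (de (k x) * de (k y) : ℤ)) +
    ∑ x, ((b' x + b x) * (al (k x) : ℤ) + (b' x - b x) * (be (k x) : ℤ)) := by
  unfold Dg
  have e1 : ∀ x y : V, J x y * ((al (k x) * al (k y) : ℤ) + (be (k x) * be (k y) : ℤ) +
      (ga (k x) * ga (k y) : ℤ) + (de (k x) * de (k y) : ℤ)) =
      J x y * (sg (cp 0 (k x)) * sg (cp 0 (k y)) : ℤ) +
      J x y * (sg (cp 1 (k x)) * sg (cp 1 (k y)) : ℤ) +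
      J x y * (sg (cp 2 (k x)) * sg (cp 2 (k y)) : ℤ) +
      J x y * (sg (cp 3 (k x)) * sg (cp 3 (k y)) : ℤ) := by
    intro x y
    have h := rot (k x) (k y)
    rw [Fin.sum_univ_four] at h
    have h' : ((sg (cp 0 (k x)) * sg (cp 0 (k y)) + sg (cp 1 (k x)) * sg (cp 1 (k y)) +
      sg (cp 2 (k x)) * sg (cp 2 (k y)) + sg (cp 3 (k x)) * sg (cp 3 (k y)) : ℤ) : ℝ) =
      ((al (k x) * al (k y) + be (k x) * be (k y) + ga (k x) * ga (k y) +
        de (k x) * de (k y) : ℤ) : ℝ) := by rw [h]
    push_cast at h' ⊢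
    rw [← h']
    ring
  have e2 : ∀ x : V, (b' x + b x) * (al (k x) : ℤ) + (b' x - b x) * (be (k x) : ℤ) =
      b' x * (sg (cp 0 (k x)) : ℤ) + b' x * (sg (cp 1 (k x)) : ℤ) + b x * (sg (cp 2 (k x)) : ℤ) +
        b x * (sg (cp 3 (k x)) : ℤ) := by
    intro x
    have h := fld (k x)
    have h1 : ((sg (cp 0 (k x)) : ℤ) : ℝ) + (sg (cp 1 (k x)) : ℤ) = (al (k x) : ℤ) + (be (k x) : ℤ) := by
      have := h.1
      have h2 : ((sg (k x).1 + sg (k x).2.1 : ℤ) : ℝ) = ((al (k x) + be (k x) : ℤ) : ℝ) := by rw [this]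
      push_cast at h2
      exact h2
    have h3 : ((sg (cp 2 (k x)) : ℤ) : ℝ) + (sg (cp 3 (k x)) : ℤ) = (al (k x) : ℤ) - (be (k x) : ℤ) := by
      have := h.2
      have h2 : ((sg (k x).2.2.1 + sg (k x).2.2.2 : ℤ) : ℝ) = ((al (k x) - be (k x) : ℤ) : ℝ) := by
        rw [this]
      push_cast at h2
      exact h2
    linear_combination (-b' x) * h1 - (b x) * h3
  simp only [e1, e2, Finset.sum_add_distrib]
  ring

theorem Gr_M4 (J : V → V → ℝ) (g b b' : V → ℝ) (l l' : V → K) :
    Gr (M4 J g b b') l l' =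
      (∑ x, ∑ y, J x y * (((∑ k, BB l k * (al (k x) * al (k y)) * BB l' k : ℤ) : ℝ) +
        ((∑ k, BB l k * (be (k x) * be (k y)) * BB l' k : ℤ) : ℝ) +
        ((∑ k, BB l k * (ga (k x) * ga (k y)) * BB l' k : ℤ) : ℝ) +
        ((∑ k, BB l k * (de (k x) * de (k y)) * BB l' k : ℤ) : ℝ))) +
      (∑ x, ((b' x + b x) * ((∑ k, BB l k * al (k x) * BB l' k : ℤ) : ℝ) +
        (b' x - b x) * ((∑ k, BB l k * be (k x) * BB l' k : ℤ) : ℝ))) +
      ∑ x, g x * ((∑ k, BB l k * ∑ i, BB l' (fq x i k) : ℤ) : ℝ) := by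
  unfold Gr M4
  simp only [diag_rot]
  have e1 : ∀ k : V → K, ∑ k', (BB l k : ℝ) * ((if k = k' then
      ∑ x, ∑ y, J x y * ((al (k x) * al (k y) : ℤ) + (be (k x) * be (k y) : ℤ) +
      (ga (k x) * ga (k y) : ℤ) + (de (k x) * de (k y) : ℤ)) +
    ∑ x, ((b' x + b x) * (al (k x) : ℤ) + (b' x - b x) * (be (k x) : ℤ)) else 0) +
      ∑ x, g x * ∑ i, (if k' = fq x i k then 1 else 0)) * (BB l' k' : ℝ) =
      (∑ x, ∑ y, J x y * ((BB l k * (al (k x) * al (k y)) * BB l' k : ℤ) +
        (BB l k * (be (k x) * be (k y)) * BB l' k : ℤ) +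
      (BB l k * (ga (k x) * ga (k y)) * BB l' k : ℤ) +
        (BB l k * (de (k x) * de (k y)) * BB l' k : ℤ))) +
      (∑ x, ((b' x + b x) * (BB l k * al (k x) * BB l' k : ℤ) +
        (b' x - b x) * (BB l k * be (k x) * BB l' k : ℤ))) +
      ∑ x, g x * ((BB l k * ∑ i, BB l' (fq x i k) : ℤ) : ℝ) := by
    intro k
    simp only [mul_add, add_mul, Finset.sum_add_distrib]
    congr 1
    · simp only [mul_ite, ite_mul, mul_zero, zero_mul, Finset.sum_ite_eq, mem_univ, if_true]
      simp only [Finset.mul_sum, Finset.sum_mul, mul_add, add_mul, Finset.sum_add_distrib]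
      push_cast
      congr 1
      · congr 1
        · congr 1
          · congr 1
            · exact Finset.sum_congr rfl fun x _ => Finset.sum_congr rfl fun y _ => by ring
            · exact Finset.sum_congr rfl fun x _ => Finset.sum_congr rfl fun y _ => by ring
          · exact Finset.sum_congr rfl fun x _ => Finset.sum_congr rfl fun y _ => by ring
        · exact Finset.sum_congr rfl fun x _ => Finset.sum_congr rfl fun y _ => by ring
      · congr 1
        · congr 1 <;> exact Finset.sum_congr rfl fun x _ => by ring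
        · exact Finset.sum_congr rfl fun x _ => by ring
    · simp only [Finset.mul_sum, Finset.sum_mul]
      rw [Finset.sum_comm]
      refine Finset.sum_congr rfl fun x _ => ?_
      rw [Finset.sum_comm]
      push_cast
      rw [Finset.mul_sum]
      refine Finset.sum_congr rfl fun i _ => ?_
      simp only [mul_ite, mul_one, mul_zero, ite_mul, zero_mul, Finset.sum_ite_eq', mem_univ, if_true]
      ring
  rw [Finset.sum_congr rfl fun k _ => e1 k]
  simp only [Finset.sum_add_distrib]
  push_cast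
  congr 1
  · congr 1
    · rw [Finset.sum_comm]
      refine Finset.sum_congr rfl fun x _ => ?_
      rw [Finset.sum_comm]
      refine Finset.sum_congr rfl fun y _ => ?_
      rw [← Finset.mul_sum]
      simp only [Finset.sum_add_distrib]
    · congr 1
      · rw [Finset.sum_comm]
        refine Finset.sum_congr rfl fun x _ => ?_
        rw [← Finset.mul_sum]
      · rw [Finset.sum_comm]
        refine Finset.sum_congr rfl fun x _ => ?_
        rw [← Finset.mul_sum]
  · rw [Finset.sum_comm]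
    refine Finset.sum_congr rfl fun x _ => ?_
    rw [← Finset.mul_sum]

/-- minus the Hamiltonian of four copies is nonnegative in the basis -/
theorem M4_nonneg (J : V → V → ℝ) (g b b' : V → ℝ) (hJ : ∀ x y, 0 ≤ J x y) (hg : ∀ x, 0 ≤ g x)
    (hb : ∀ x, 0 ≤ b x) (hbb : ∀ x, b x ≤ b' x) (l l' : V → K) : 0 ≤ Gr (M4 J g b b') l l' := by
  rw [Gr_M4]
  have c : ∀ z : ℤ, 0 ≤ z → (0 : ℝ) ≤ z := fun z hz => by exact_mod_cast hz
  refine add_nonneg (add_nonneg ?_ ?_) ?_
  · refine Finset.sum_nonneg fun x _ => Finset.sum_nonneg fun y _ => mul_nonneg (hJ x y) ?_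
    refine add_nonneg (add_nonneg (add_nonneg ?_ ?_) ?_) ?_
    · exact c _ (diag2 al nn_al nn_al2 x y l l')
    · exact c _ (diag2 be nn_be nn_be2 x y l l')
    · exact c _ (diag2 ga nn_ga nn_ga2 x y l l')
    · exact c _ (diag2 de nn_de nn_de2 x y l l')
  · refine Finset.sum_nonneg fun x _ => add_nonneg (mul_nonneg ?_ ?_) (mul_nonneg ?_ ?_)
    · linarith [hb x, hbb x]
    · exact c _ (diag1 al nn_al x l l')
    · linarith [hbb x]
    · exact c _ (diag1 be nn_be x l l')
  · refine Finset.sum_nonneg fun x _ => mul_nonneg (hg x) ?_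
    exact c _ (flips x l l')

end Pool.Agent.KS6_99.IS
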