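import Pool.Graph.R_seed8.TH235.PP.Ener
import Pool.Agent.KS6_99.IS.Four

/-!
Energies of antisymmetric vectors of two copies, and the form of four copies in terms of the single
copies.
-/

set_option autoImplicit false
set_option linter.unusedSectionVars false

open scoped BigOperators Matrix
open Finset Pool.Agent.TH235.PP

namespace Pool.Agent.KS6_99.IS

section anti

variable {X : Type*} [Fintype X] [DecidableEq X]

/-- the quadratic form of a matrix -/
noncomputable def qf (H : Matrix X X ℂ) (φ : X → ℂ) : ℂ := ip φ (H *ᵥ φ)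

theorem conj_mul_re (a : ℂ) : ((starRingEnd ℂ) a * a).re = ‖a‖ ^ 2 := by
  rw [mul_comm, Complex.mul_conj, Complex.ofReal_re, Complex.normSq_eq_norm_sq]

theorem ip_self_re (φ : X → ℂ) : (ip φ φ).re = normSq φ := by
  unfold ip normSq
  rw [Complex.re_sum]
  exact Finset.sum_congr rfl fun s _ => conj_mul_re _

theorem conj_mul_self (a : ℂ) : (starRingEnd ℂ) a * a = ((‖a‖ ^ 2 : ℝ) : ℂ) := by
  rw [mul_comm, Complex.mul_conj, Complex.normSq_eq_norm_sq]

theorem ip_self (φ : X → ℂ) : ip φ φ = (normSq φ : ℂ) := by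
  unfold ip normSq
  push_cast
  exact Finset.sum_congr rfl fun s _ => by rw [conj_mul_self]; push_cast; rfl

theorem ip_conj (φ ψ : X → ℂ) : (starRingEnd ℂ) (ip φ ψ) = ip ψ φ := by
  unfold ip
  rw [map_sum]
  refine Finset.sum_congr rfl fun s _ => ?_
  rw [map_mul, Complex.conj_conj, mul_comm]

theorem qf_neg (H : Matrix X X ℂ) (φ : X → ℂ) : qf H (-φ) = qf H φ := by
  unfold qf
  rw [Matrix.mulVec_neg]
  unfold ip
  refine Finset.sum_congr rfl fun s _ => ?_
  simp

theorem qf_smul (H : Matrix X X ℂ) (c : ℂ) (φ : X → ℂ) :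
    qf H (c • φ) = ((‖c‖ ^ 2 : ℝ) : ℂ) * qf H φ := by
  unfold qf
  rw [Matrix.mulVec_smul, ip_smul_right, ip_smul_left, ← mul_assoc, mul_comm c, conj_mul_self]

/-- the projection on a unit vector in one factor of an antisymmetric vector -/
theorem half (Ω : X → ℂ) (hΩ : normSq Ω = 1) (F : X → X → ℂ) (hF : ∀ s t, F t s = -F s t) :
    2 * ∑ t, ‖ip Ω (fun s => F s t)‖ ^ 2 ≤ ∑ s, ∑ t, ‖F s t‖ ^ 2 := by
  set G : X → ℂ := fun t => ip Ω (fun s => F s t) with hG
  have hΩG : ip Ω G = 0 := by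
    have h1 : ip Ω G = -ip Ω G := by
      have h0 : ip Ω G = ∑ t, ∑ s, (starRingEnd ℂ) (Ω t) * ((starRingEnd ℂ) (Ω s) * F s t) := by
        rw [hG]
        unfold ip
        exact Finset.sum_congr rfl fun t _ => Finset.mul_sum _ _ _
      conv_lhs => rw [h0, Finset.sum_comm]
      rw [h0, ← Finset.sum_neg_distrib]
      refine Finset.sum_congr rfl fun s _ => ?_
      rw [← Finset.sum_neg_distrib]
      refine Finset.sum_congr rfl fun t _ => ?_
      rw [hF t s]
      ring
    have h2 : (2 : ℂ) * ip Ω G = 0 := by linear_combination h1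
    simpa using h2
  have hGΩ : ip G Ω = 0 := by rw [← ip_conj, hΩG, map_zero]
  have hΩΩ : ip Ω Ω = 1 := by rw [ip_self, hΩ, Complex.ofReal_one]
  have key : ∑ s, ∑ t, (starRingEnd ℂ) (F s t - (Ω s * G t - G s * Ω t)) *
      (F s t - (Ω s * G t - G s * Ω t)) =
      (∑ s, ∑ t, (starRingEnd ℂ) (F s t) * F s t) - 2 * ip G G := by
    have e1 : ∀ s t, (starRingEnd ℂ) (F s t - (Ω s * G t - G s * Ω t)) *
      (F s t - (Ω s * G t - G s * Ω t)) =
        (starRingEnd ℂ) (F s t) * F s t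
        - (starRingEnd ℂ) (F s t) * (Ω s * G t) + (starRingEnd ℂ) (F s t) * (G s * Ω t)
        - (starRingEnd ℂ) (Ω s * G t) * F s t + (starRingEnd ℂ) (G s * Ω t) * F s t
        + ((starRingEnd ℂ) (Ω s) * Ω s) * ((starRingEnd ℂ) (G t) * G t)
        - ((starRingEnd ℂ) (Ω s) * G s) * ((starRingEnd ℂ) (G t) * Ω t)
        - ((starRingEnd ℂ) (G s) * Ω s) * ((starRingEnd ℂ) (Ω t) * G t)
        + ((starRingEnd ℂ) (G s) * G s) * ((starRingEnd ℂ) (Ω t) * Ω t) := by
      intro s t
      simp only [map_sub, map_mul]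
      ring
    have p1 : ∑ s, ∑ t, (starRingEnd ℂ) (Ω s * G t) * F s t = ip G G := by
      rw [Finset.sum_comm]
      have : ip G G = ∑ t, (starRingEnd ℂ) (G t) * ip Ω (fun s => F s t) := rfl
      rw [this]
      refine Finset.sum_congr rfl fun t _ => ?_
      unfold ip
      rw [Finset.mul_sum]
      refine Finset.sum_congr rfl fun s _ => ?_
      rw [map_mul]
      ring
    have p2 : ∑ s, ∑ t, (starRingEnd ℂ) (G s * Ω t) * F s t = -ip G G := by
      have : ip G G = ∑ s, (starRingEnd ℂ) (G s) * ip Ω (fun t => F t s) := rfl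
      rw [this, ← Finset.sum_neg_distrib]
      refine Finset.sum_congr rfl fun s _ => ?_
      unfold ip
      rw [Finset.mul_sum, ← Finset.sum_neg_distrib]
      refine Finset.sum_congr rfl fun t _ => ?_
      rw [map_mul, hF t s]
      ring
    have p3 : ∑ s, ∑ t, (starRingEnd ℂ) (F s t) * (Ω s * G t) = ip G G := by
      have h1 := congrArg (starRingEnd ℂ) p1
      rw [ip_conj, map_sum] at h1
      rw [← h1]
      refine Finset.sum_congr rfl fun s _ => ?_
      rw [map_sum]
      refine Finset.sum_congr rfl fun t _ => ?_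
      simp only [map_mul, Complex.conj_conj]
      ring
    have p4 : ∑ s, ∑ t, (starRingEnd ℂ) (F s t) * (G s * Ω t) = -ip G G := by
      have h1 := congrArg (starRingEnd ℂ) p2
      rw [map_neg, ip_conj, map_sum] at h1
      rw [← h1]
      refine Finset.sum_congr rfl fun s _ => ?_
      rw [map_sum]
      refine Finset.sum_congr rfl fun t _ => ?_
      simp only [map_mul, Complex.conj_conj]
      ring
    have pp : ∀ a b c d : X → ℂ, ∑ s, ∑ t, ((starRingEnd ℂ) (a s) * b s) * ((starRingEnd ℂ) (c t) * d t) =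
        ip a b * ip c d := by
      intro a b c d
      unfold ip
      rw [Finset.sum_mul_sum]
    simp only [e1, Finset.sum_add_distrib, Finset.sum_sub_distrib]
    rw [pp, pp, pp, pp, p1, p2, p3, p4, hΩΩ, hΩG, hGΩ]
    ring
  have h0 : 0 ≤ (∑ s, ∑ t, (starRingEnd ℂ) (F s t - (Ω s * G t - G s * Ω t)) *
      (F s t - (Ω s * G t - G s * Ω t))).re := by
    rw [Complex.re_sum]
    refine Finset.sum_nonneg fun s _ => ?_
    rw [Complex.re_sum]
    refine Finset.sum_nonneg fun t _ => ?_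
    rw [conj_mul_re]
    positivity
  rw [key, Complex.sub_re] at h0
  have h1 : (∑ s, ∑ t, (starRingEnd ℂ) (F s t) * F s t).re = ∑ s, ∑ t, ‖F s t‖ ^ 2 := by
    rw [Complex.re_sum]
    refine Finset.sum_congr rfl fun s _ => ?_
    rw [Complex.re_sum]
    exact Finset.sum_congr rfl fun t _ => conj_mul_re _
  have h2 : (2 * ip G G).re = 2 * normSq G := by
    rw [ip_self, ← Complex.ofReal_ofNat, ← Complex.ofReal_mul, Complex.ofReal_re]
  rw [h1, h2] at h0
  have h3 : normSq G = ∑ t, ‖ip Ω (fun s => F s t)‖ ^ 2 := rfl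
  rw [h3] at h0
  linarith

/-- energies of antisymmetric vectors of two copies -/
theorem anti (H : Matrix X X ℂ) (Ω : X → ℂ) (hΩ : normSq Ω = 1) (E Δ : ℝ) (hΔ : 0 ≤ Δ)
    (hform : ∀ x, E * normSq x + Δ * (normSq x - ‖ip Ω x‖ ^ 2) ≤ (qf H x).re)
    (F : X → X → ℂ) (hF : ∀ s t, F t s = -F s t) :
    (2 * E + Δ) * ∑ s, ∑ t, ‖F s t‖ ^ 2 ≤
      ∑ t, (qf H fun s => F s t).re + ∑ s, (qf H fun t => F s t).re := by
  have h1 : ∑ s, (qf H fun t => F s t).re = ∑ t, (qf H fun s => F s t).re := by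
    refine Finset.sum_congr rfl fun s _ => ?_
    have : (fun t => F s t) = -(fun t => F t s) := by
      funext t
      rw [Pi.neg_apply, hF t s]
    rw [this, qf_neg]
  have h2 : ∑ t, (E * normSq (fun s => F s t) + Δ * (normSq (fun s => F s t) -
      ‖ip Ω (fun s => F s t)‖ ^ 2)) ≤ ∑ t, (qf H fun s => F s t).re :=
    Finset.sum_le_sum fun t _ => hform _
  have h3 : ∑ t, normSq (fun s => F s t) = ∑ s, ∑ t, ‖F s t‖ ^ 2 := by
    unfold normSq
    rw [Finset.sum_comm]
  have h4 := half Ω hΩ F hF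
  rw [Finset.sum_add_distrib, ← Finset.mul_sum, ← Finset.mul_sum, Finset.sum_sub_distrib, h3] at h2
  rw [h1]
  nlinarith

end anti

section four

variable {V : Type*} [Fintype V] [DecidableEq V]

/-- the Hamiltonian of the quantum Ising model as a matrix -/
noncomputable def HH (J : V → V → ℝ) (g b : V → ℝ) : Matrix (V → Fin 2) (V → Fin 2) ℂ := fun s t =>
  -(((if s = t then Dg J b s else 0) + ∑ x, g x * (if t = fp x s then 1 else 0) : ℝ) : ℂ)

theorem HH_mulVec (J : V → V → ℝ) (g b : V → ℝ) (φ : (V → Fin 2) → ℂ) (s : V → Fin 2) :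
    (HH J g b *ᵥ φ) s = -((Dg J b s : ℂ) * φ s + ∑ x, (g x : ℂ) * φ (fp x s)) := by
  unfold HH Matrix.mulVec dotProduct
  simp only [Complex.ofReal_add, neg_mul, add_mul, Finset.sum_neg_distrib, Finset.sum_add_distrib]
  congr 1
  congr 1
  · simp only [apply_ite Complex.ofReal, Complex.ofReal_zero, ite_mul, zero_mul, Finset.sum_ite_eq,
      mem_univ, if_true]
  · simp only [Complex.ofReal_sum, Finset.sum_mul]
    rw [Finset.sum_comm]
    refine Finset.sum_congr rfl fun x _ => ?_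
    simp only [Complex.ofReal_mul, apply_ite Complex.ofReal, Complex.ofReal_zero, Complex.ofReal_one,
      mul_ite, mul_one, mul_zero, ite_mul, zero_mul, Finset.sum_ite_eq', mem_univ, if_true]

/-- four configurations -/
def mk (s t u v : V → Fin 2) : V → K := fun x => (s x, t x, u x, v x)

theorem sum_mk {M : Type*} [AddCommMonoid M] (F : (V → K) → M) :
    ∑ k, F k = ∑ s, ∑ t, ∑ u, ∑ v, F (mk s t u v) := by
  let e : (V → Fin 2) × (V → Fin 2) × (V → Fin 2) × (V → Fin 2) ≃ (V → K) :=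
    ⟨fun p => mk p.1 p.2.1 p.2.2.1 p.2.2.2,
      fun k => (fun x => (k x).1, fun x => (k x).2.1, fun x => (k x).2.2.1, fun x => (k x).2.2.2),
      fun _ => rfl, fun _ => rfl⟩
  rw [← e.sum_comp, Fintype.sum_prod_type]
  refine Finset.sum_congr rfl fun s _ => ?_
  rw [Fintype.sum_prod_type]
  refine Finset.sum_congr rfl fun t _ => ?_
  rw [Fintype.sum_prod_type]
  rfl

theorem fq_mk (x : V) (s t u v : V → Fin 2) :
    fq x 0 (mk s t u v) = mk (fp x s) t u v ∧ fq x 1 (mk s t u v) = mk s (fp x t) u v ∧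
    fq x 2 (mk s t u v) = mk s t (fp x u) v ∧ fq x 3 (mk s t u v) = mk s t u (fp x v) := by
  refine ⟨?_, ?_, ?_, ?_⟩ <;>
  · funext z
    unfold fq mk fp fl
    by_cases hz : z = x
    · subst hz
      simp
    · simp [Function.update_of_ne hz]

theorem M4_apply (J : V → V → ℝ) (g b b' : V → ℝ) (f : (V → K) → ℂ) (s t u v : V → Fin 2) :
    ∑ k', (M4 J g b b' (mk s t u v) k' : ℂ) * f k' =
      -((HH J g b' *ᵥ fun a => f (mk a t u v)) s + (HH J g b' *ᵥ fun a => f (mk s a u v)) t +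
        (HH J g b *ᵥ fun a => f (mk s t a v)) u + (HH J g b *ᵥ fun a => f (mk s t u a)) v) := by
  rw [HH_mulVec, HH_mulVec, HH_mulVec, HH_mulVec]
  unfold M4
  simp only [Complex.ofReal_add, add_mul, Finset.sum_add_distrib]
  have h1 : ∑ k', ((if mk s t u v = k' then Dg J b' (fun x => cp 0 ((mk s t u v) x)) +
      Dg J b' (fun x => cp 1 ((mk s t u v) x)) + Dg J b (fun x => cp 2 ((mk s t u v) x)) +
      Dg J b (fun x => cp 3 ((mk s t u v) x)) else 0 : ℝ) : ℂ) * f k' =
      ((Dg J b' s : ℂ) + (Dg J b' t : ℂ) + (Dg J b u : ℂ) + (Dg J b v : ℂ)) * f (mk s t u v) := by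
    simp only [apply_ite Complex.ofReal, Complex.ofReal_zero, ite_mul, zero_mul, Finset.sum_ite_eq,
      mem_univ, if_true]
    push_cast
    rfl
  have h2 : ∑ k', ((∑ x, g x * ∑ i, (if k' = fq x i (mk s t u v) then 1 else 0) : ℝ) : ℂ) * f k' =
      ∑ x, (g x : ℂ) * (f (mk (fp x s) t u v) + f (mk s (fp x t) u v) + f (mk s t (fp x u) v) +
        f (mk s t u (fp x v))) := by
    simp only [Complex.ofReal_sum, Finset.sum_mul]
    rw [Finset.sum_comm]
    refine Finset.sum_congr rfl fun x _ => ?_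
    obtain ⟨e0, e1, e2, e3⟩ := fq_mk x s t u v
    rw [← e0, ← e1, ← e2, ← e3]
    simp only [Fin.sum_univ_four]
    simp only [Complex.ofReal_mul, Complex.ofReal_add, apply_ite Complex.ofReal, Complex.ofReal_zero,
      Complex.ofReal_one, mul_add, add_mul, Finset.sum_add_distrib, mul_ite, mul_one, mul_zero, ite_mul,
      zero_mul, Finset.sum_ite_eq', mem_univ, if_true]
  rw [h1, h2]
  simp only [mul_add, add_mul, Finset.sum_add_distrib]
  ring

/-- the form of four copies -/
theorem form4 (J : V → V → ℝ) (g b b' : V → ℝ) (f : (V → K) → ℂ) :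
    ∑ k, ∑ k', (starRingEnd ℂ) (f k) * (M4 J g b b' k k' : ℂ) * f k' =
      -((∑ t, ∑ u, ∑ v, qf (HH J g b') fun a => f (mk a t u v)) +
        (∑ s, ∑ u, ∑ v, qf (HH J g b') fun a => f (mk s a u v)) +
        (∑ s, ∑ t, ∑ v, qf (HH J g b) fun a => f (mk s t a v)) +
        (∑ s, ∑ t, ∑ u, qf (HH J g b) fun a => f (mk s t u a))) := by
  have h1 : ∀ k : V → K, ∑ k', (starRingEnd ℂ) (f k) * (M4 J g b b' k k' : ℂ) * f k' =
      (starRingEnd ℂ) (f k) * ∑ k', (M4 J g b b' k k' : ℂ) * f k' := by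
    intro k
    rw [Finset.mul_sum]
    exact Finset.sum_congr rfl fun k' _ => mul_assoc _ _ _
  rw [Finset.sum_congr rfl fun k _ => h1 k,
    sum_mk (fun k => (starRingEnd ℂ) (f k) * ∑ k', (M4 J g b b' k k' : ℂ) * f k')]
  have h2 : ∀ s t u v, (starRingEnd ℂ) (f (mk s t u v)) *
      ∑ k', (M4 J g b b' (mk s t u v) k' : ℂ) * f k' =
      -((starRingEnd ℂ) (f (mk s t u v)) * ((HH J g b' *ᵥ fun a => f (mk a t u v)) s) +
        (starRingEnd ℂ) (f (mk s t u v)) * ((HH J g b' *ᵥ fun a => f (mk s a u v)) t) +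
        (starRingEnd ℂ) (f (mk s t u v)) * ((HH J g b *ᵥ fun a => f (mk s t a v)) u) +
        (starRingEnd ℂ) (f (mk s t u v)) * ((HH J g b *ᵥ fun a => f (mk s t u a)) v)) := by
    intro s t u v
    rw [M4_apply J g b b' f s t u v]
    ring
  rw [Finset.sum_congr rfl fun s _ => Finset.sum_congr rfl fun t _ => Finset.sum_congr rfl fun u _ =>
    Finset.sum_congr rfl fun v _ => h2 s t u v]
  clear h1 h2
  simp only [Finset.sum_add_distrib, Finset.sum_neg_distrib]
  refine congrArg Neg.neg (congrArg₂ (· + ·) (congrArg₂ (· + ·) (congrArg₂ (· + ·) ?_ ?_) ?_) ?_)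
  · rw [Finset.sum_comm]
    refine Finset.sum_congr rfl fun t _ => ?_
    rw [Finset.sum_comm]
    refine Finset.sum_congr rfl fun u _ => ?_
    rw [Finset.sum_comm]
    rfl
  · refine Finset.sum_congr rfl fun s _ => ?_
    rw [Finset.sum_comm]
    refine Finset.sum_congr rfl fun u _ => ?_
    rw [Finset.sum_comm]
    rfl
  · refine Finset.sum_congr rfl fun s _ => ?_
    refine Finset.sum_congr rfl fun t _ => ?_
    rw [Finset.sum_comm]
    rfl
  · rfl

end four

end Pool.Agent.KS6_99.IS
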