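import Pool.Agent.KS6_99.IS.Anti

/-!
The gap of the ferromagnetic quantum Ising model is nondecreasing in the longitudinal fields.
-/

set_option autoImplicit false
set_option linter.unusedSectionVars false
set_option maxHeartbeats 1000000

open scoped BigOperators Matrix InnerProductSpace
open Finset Pool.Agent.TH235.PP

namespace Pool.Agent.KS6_99.IS

section spec

variable {n : Type*} [Fintype n] [DecidableEq n]

/-- a Hermitian matrix has a lowest eigenvalue -/
theorem lowest [Nonempty n] (A : Matrix n n ℂ) (hA : A.IsHermitian) :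
    ∃ (E : ℝ) (ψ : n → ℂ), normSq ψ = 1 ∧ A *ᵥ ψ = (E : ℂ) • ψ ∧
      ∀ x, E * normSq x ≤ (qf A x).re := by
  set b := hA.eigenvectorBasis with hb
  set lam := hA.eigenvalues with hlam
  obtain ⟨i0, -, hi0⟩ := Finset.exists_min_image univ lam ⟨Classical.arbitrary n, mem_univ _⟩
  have hAb : ∀ j, A *ᵥ (b j).ofLp = (lam j : ℂ) • (b j).ofLp := by
    intro j
    have := hA.mulVec_eigenvectorBasis j
    rw [this]
    rfl
  refine ⟨lam i0, (b i0).ofLp, ?_, hAb i0, ?_⟩
  · rw [← nr_sq]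
    have h2 := b.norm_eq_one i0
    have h3 : nr (b i0).ofLp = 1 := h2
    rw [h3, one_pow]
  intro x
  set T := Matrix.toEuclideanLin A with hT
  set X : EuclideanSpace ℂ n := WithLp.toLp 2 x with hX
  have hTb : ∀ j, T (b j) = (lam j : ℂ) • b j := by
    intro j
    have : T (b j) = WithLp.toLp 2 (A *ᵥ (b j).ofLp) := rfl
    rw [this, hAb j, WithLp.toLp_smul]
  have hsum : T X = ∑ j, (⟪b j, X⟫_ℂ * (lam j : ℂ)) • b j := by
    conv_lhs => rw [← b.sum_repr' X]
    rw [map_sum]
    refine Finset.sum_congr rfl fun j _ => ?_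
    rw [map_smul, hTb, smul_smul]
  have hin : ∀ i, ⟪b i, T X⟫_ℂ = ⟪b i, X⟫_ℂ * (lam i : ℂ) := by
    intro i
    rw [hsum]
    exact b.orthonormal.inner_right_fintype _ i
  have hen : (qf A x).re = ∑ i, lam i * ‖⟪b i, X⟫_ℂ‖ ^ 2 := by
    have h1 : ip x (A *ᵥ x) = ⟪X, T X⟫_ℂ := by
      rw [ip_eq]; rfl
    unfold qf
    rw [h1, ← b.sum_inner_mul_inner X (T X), Complex.re_sum]
    refine Finset.sum_congr rfl fun i _ => ?_
    rw [hin, ← mul_assoc, ← inner_conj_symm X (b i), ← Complex.normSq_eq_conj_mul_self,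
      ← Complex.ofReal_mul, Complex.ofReal_re, Complex.normSq_eq_norm_sq, mul_comm]
  have hnx : normSq x = ∑ i, ‖⟪b i, X⟫_ℂ‖ ^ 2 := by
    rw [← nr_sq]
    exact (b.sum_sq_norm_inner_right X).symm
  rw [hen, hnx, Finset.mul_sum]
  exact Finset.sum_le_sum fun i _ => mul_le_mul_of_nonneg_right (hi0 i (mem_univ i)) (by positivity)

/-- Hermitian matrices and the scalar product -/
theorem ip_mulVec (A : Matrix n n ℂ) (hA : A.IsHermitian) (x y : n → ℂ) :
    ip x (A *ᵥ y) = ip (A *ᵥ x) y := by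
  unfold ip Matrix.mulVec dotProduct
  simp only [map_sum, Finset.sum_mul, Finset.mul_sum]
  rw [Finset.sum_comm]
  refine Finset.sum_congr rfl fun s _ => Finset.sum_congr rfl fun t _ => ?_
  rw [map_mul]
  have h : (starRingEnd ℂ) (A s t) = A t s := hA.apply t s
  rw [h]
  ring

/-- from the form to the gap -/
theorem gapped_of_form (A : Matrix n n ℂ) (hA : A.IsHermitian) (Δ E : ℝ) (hΔ : 0 < Δ) (ψ : n → ℂ)
    (hψ : normSq ψ = 1) (hE : A *ᵥ ψ = (E : ℂ) • ψ)
    (hform : ∀ x, ip ψ x = 0 → (E + Δ) * normSq x ≤ (qf A x).re) : IsGappedGround A Δ ψ := by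
  have hψψ : ip ψ ψ = 1 := by rw [ip_self, hψ, Complex.ofReal_one]
  have pos : ∀ x : n → ℂ, normSq x = 0 → x = 0 := by
    intro x hx
    funext s
    unfold normSq at hx
    have h1 := (Finset.sum_eq_zero_iff_of_nonneg fun s _ => by positivity).1 hx s (mem_univ s)
    have h2 : ‖x s‖ = 0 := by
      exact pow_eq_zero_iff (two_ne_zero) |>.1 h1
    simpa using h2
  refine ⟨E, hE, ?_, ?_⟩
  · intro φ hφ
    refine ⟨ip ψ φ, ?_⟩
    set x : n → ℂ := φ - ip ψ φ • ψ with hx
    have h1 : ip ψ x = 0 := by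
      have : ip ψ x = ip ψ φ - ip ψ φ * ip ψ ψ := by
        rw [hx]
        unfold ip
        simp only [Pi.sub_apply, Pi.smul_apply, smul_eq_mul, mul_sub, Finset.sum_sub_distrib]
        congr 1
        rw [Finset.mul_sum]
        exact Finset.sum_congr rfl fun s _ => by ring
      rw [this, hψψ]
      ring
    have h2 : A *ᵥ x = (E : ℂ) • x := by
      rw [hx, Matrix.mulVec_sub, Matrix.mulVec_smul, hφ, hE, smul_sub, smul_comm]
    have h3 := hform x h1
    have h4 : (qf A x).re = E * normSq x := by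
      unfold qf
      rw [h2, ip_smul_right, ip_self, ← Complex.ofReal_mul, Complex.ofReal_re]
    rw [h4] at h3
    have h5 : normSq x = 0 := by
      have h6 : 0 ≤ normSq x := Finset.sum_nonneg fun _ _ => by positivity
      nlinarith
    have h7 := pos x h5
    rw [hx] at h7
    exact sub_eq_zero.1 h7
  · intro E' φ hφ0 hφ
    by_cases hEE : E' = E
    · exact Or.inl hEE
    right
    have h1 : ip ψ φ = 0 := by
      have h2 : ip ψ (A *ᵥ φ) = ip (A *ᵥ ψ) φ := ip_mulVec A hA ψ φ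
      rw [hφ, hE, ip_smul_right, ip_smul_left, Complex.conj_ofReal] at h2
      have h3 : ((E' : ℂ) - E) * ip ψ φ = 0 := by linear_combination h2
      rcases mul_eq_zero.1 h3 with h4 | h4
      · exfalso
        apply hEE
        have := sub_eq_zero.1 h4
        exact_mod_cast this
      · exact h4
    have h3 := hform φ h1
    have h4 : (qf A φ).re = E' * normSq φ := by
      unfold qf
      rw [hφ, ip_smul_right, ip_self, ← Complex.ofReal_mul, Complex.ofReal_re]
    rw [h4] at h3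
    have h6 : 0 < normSq φ := by
      have h7 : 0 ≤ normSq φ := Finset.sum_nonneg fun _ _ => by positivity
      rcases h7.lt_or_eq with h8 | h8
      · exact h8
      · exact absurd (pos φ h8.symm) hφ0
    exact le_of_mul_le_mul_right h3 h6

end spec

section mono

variable {V : Type*} [Fintype V] [DecidableEq V]

theorem ot_ot (a : Fin 2) : ot (ot a) = a := by
  unfold ot
  fin_cases a <;> rfl

theorem fp_fp (x : V) (s : V → Fin 2) : fp x (fp x s) = s := by
  unfold fp
  rw [Function.update_self, ot_ot, Function.update_idem, Function.update_eq_self]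

theorem HH_herm (J : V → V → ℝ) (g b : V → ℝ) : (HH J g b).IsHermitian := by
  ext s t
  rw [Matrix.conjTranspose_apply]
  unfold HH
  rw [star_neg]
  congr 1
  rw [Complex.star_def, Complex.conj_ofReal]
  congr 1
  congr 1
  · by_cases h : s = t
    · subst h
      rfl
    · rw [if_neg h, if_neg (Ne.symm h)]
  · refine Finset.sum_congr rfl fun x _ => ?_
    congr 1
    by_cases h : s = fp x t
    · have h' : t = fp x s := by rw [h, fp_fp]
      rw [if_pos h, if_pos h']
    · have h' : ¬ t = fp x s := fun h2 => h (by rw [h2, fp_fp])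
      rw [if_neg h, if_neg h']

/-- a lower bound for the energy of four copies on the vectors which are odd under the exchange of
the copies three and four -/
theorem lower4 (J : V → V → ℝ) (g b b' : V → ℝ) (E' E Δ : ℝ) (hΔ : 0 ≤ Δ) (Ω : (V → Fin 2) → ℂ)
    (hΩ : normSq Ω = 1) (hlow : ∀ x, E' * normSq x ≤ (qf (HH J g b') x).re)
    (hform : ∀ x, E * normSq x + Δ * (normSq x - ‖ip Ω x‖ ^ 2) ≤ (qf (HH J g b) x).re)
    (h : (V → K) → ℂ) (hanti : ∀ s t u v, h (mk s t v u) = -h (mk s t u v)) :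
    (2 * E' + 2 * E + Δ) * ∑ k, ‖h k‖ ^ 2 ≤
      -(∑ k, ∑ k', (starRingEnd ℂ) (h k) * (M4 J g b b' k k' : ℂ) * h k').re := by
  rw [form4, sum_mk (fun k => ‖h k‖ ^ 2)]
  have e1 : ∑ t, ∑ u, ∑ v, normSq (fun a => h (mk a t u v)) =
      ∑ s, ∑ t, ∑ u, ∑ v, ‖h (mk s t u v)‖ ^ 2 := by
    unfold normSq
    conv_rhs => rw [Finset.sum_comm]
    refine Finset.sum_congr rfl fun t _ => ?_
    conv_rhs => rw [Finset.sum_comm]
    refine Finset.sum_congr rfl fun u _ => ?_
    conv_rhs => rw [Finset.sum_comm]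
  have e2 : ∑ s, ∑ u, ∑ v, normSq (fun a => h (mk s a u v)) =
      ∑ s, ∑ t, ∑ u, ∑ v, ‖h (mk s t u v)‖ ^ 2 := by
    unfold normSq
    refine Finset.sum_congr rfl fun s _ => ?_
    conv_rhs => rw [Finset.sum_comm]
    refine Finset.sum_congr rfl fun u _ => ?_
    conv_rhs => rw [Finset.sum_comm]
  have t1 : ∑ t, ∑ u, ∑ v, E' * normSq (fun a => h (mk a t u v)) ≤
      ∑ t, ∑ u, ∑ v, (qf (HH J g b') fun a => h (mk a t u v)).re :=
    Finset.sum_le_sum fun t _ => Finset.sum_le_sum fun u _ => Finset.sum_le_sum fun v _ => hlow _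
  have t2 : ∑ s, ∑ u, ∑ v, E' * normSq (fun a => h (mk s a u v)) ≤
      ∑ s, ∑ u, ∑ v, (qf (HH J g b') fun a => h (mk s a u v)).re :=
    Finset.sum_le_sum fun t _ => Finset.sum_le_sum fun u _ => Finset.sum_le_sum fun v _ => hlow _
  have t3 : ∑ s, ∑ t, (2 * E + Δ) * ∑ u, ∑ v, ‖h (mk s t u v)‖ ^ 2 ≤
      ∑ s, ∑ t, (∑ v, (qf (HH J g b) fun a => h (mk s t a v)).re +
        ∑ u, (qf (HH J g b) fun a => h (mk s t u a)).re) :=
    Finset.sum_le_sum fun s _ => Finset.sum_le_sum fun t _ =>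
      anti (HH J g b) Ω hΩ E Δ hΔ hform (fun u v => h (mk s t u v)) (fun u v => hanti s t u v)
  simp only [← Finset.mul_sum] at t1 t2 t3
  rw [e1] at t1
  rw [e2] at t2
  simp only [Finset.sum_add_distrib] at t3
  simp only [Complex.neg_re, Complex.add_re, Complex.re_sum]
  linarith

/-- **The gap is nondecreasing in the longitudinal fields.** -/
theorem gap_mono (J : V → V → ℝ) (g b b' : V → ℝ) (hJ : ∀ x y, 0 ≤ J x y) (hg : ∀ x, 0 ≤ g x)
    (hb : ∀ x, 0 ≤ b x) (hbb : ∀ x, b x ≤ b' x) (Δ : ℝ) (hΔ : 0 < Δ) (Ω : (V → Fin 2) → ℂ)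
    (hΩ : normSq Ω = 1) (hG : IsGappedGround (HH J g b) Δ Ω) :
    ∃ Ω' : (V → Fin 2) → ℂ, normSq Ω' = 1 ∧ IsGappedGround (HH J g b') Δ Ω' := by
  obtain ⟨E, hE, -, -⟩ := id hG
  have hEE : (ip Ω (HH J g b *ᵥ Ω)).re = E := by
    rw [hE, ip_smul_right, ip_self_one Ω hΩ, mul_one, Complex.ofReal_re]
  have hqΩ : qf (HH J g b) Ω = (E : ℂ) := by
    unfold qf
    rw [hE, ip_smul_right, ip_self_one Ω hΩ, mul_one]
  have hform : ∀ x, E * normSq x + Δ * (normSq x - ‖ip Ω x‖ ^ 2) ≤ (qf (HH J g b) x).re := by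
    intro x
    have := gap_ineq (HH J g b) (HH_herm J g b) Δ hΔ Ω hΩ hG x
    rw [hEE] at this
    exact this
  obtain ⟨E', Ω', hΩ', hE', hlow⟩ := lowest (HH J g b') (HH_herm J g b')
  refine ⟨Ω', hΩ', gapped_of_form _ (HH_herm J g b') Δ E' hΔ Ω' hΩ' hE' ?_⟩
  intro y hy
  by_cases hy0 : normSq y = 0
  · have h1 := hlow y
    rw [hy0] at h1 ⊢
    simpa using h1
  have hyn : 0 < normSq y := lt_of_le_of_ne (Finset.sum_nonneg fun _ _ => by positivity) (Ne.symm hy0)
  have hΩ'Ω' : ip Ω' Ω' = 1 := ip_self_one Ω' hΩ'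
  have hqΩ' : qf (HH J g b') Ω' = (E' : ℂ) := by
    unfold qf
    rw [hE', ip_smul_right, hΩ'Ω', mul_one]
  have hy' : ip y Ω' = 0 := by rw [← ip_conj, hy, map_zero]
  -- the trial vector
  set A2 : (V → Fin 2) → (V → Fin 2) → ℂ := fun s t => Ω' s * y t - y s * Ω' t with hA2
  set f : (V → K) → ℂ := fun k => A2 (fun x => (k x).1) (fun x => (k x).2.1) *
    (Ω (fun x => (k x).2.2.1) * Ω (fun x => (k x).2.2.2)) with hf
  have hfm : ∀ s t u v, f (mk s t u v) = A2 s t * (Ω u * Ω v) := fun s t u v => rfl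
  have hfa : ∀ k, f (SA k) = -f k := by
    intro k
    have h1 : f (SA k) = A2 (fun x => (k x).2.1) (fun x => (k x).1) *
      (Ω (fun x => (k x).2.2.1) * Ω (fun x => (k x).2.2.2)) := rfl
    rw [h1, hf, hA2]
    ring
  have hfb : ∀ k, f (SB k) = f k := by
    intro k
    have h1 : f (SB k) = A2 (fun x => (k x).1) (fun x => (k x).2.1) *
      (Ω (fun x => (k x).2.2.2) * Ω (fun x => (k x).2.2.1)) := rfl
    rw [h1, hf]
    ring
  -- sums of products
  have hΩs : ∑ u, ‖Ω u‖ ^ 2 = 1 := hΩ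
  have hΩ's : ∑ u, ‖Ω' u‖ ^ 2 = 1 := hΩ'
  have hA2n : ∑ s, ∑ t, ‖A2 s t‖ ^ 2 = 2 * normSq y := by
    have e1 : ∀ s t, (‖A2 s t‖ ^ 2 : ℝ) = ((((starRingEnd ℂ) (Ω' s) * Ω' s) * ((starRingEnd ℂ) (y t) * y t)
        - ((starRingEnd ℂ) (Ω' s) * y s) * ((starRingEnd ℂ) (y t) * Ω' t)
        - ((starRingEnd ℂ) (y s) * Ω' s) * ((starRingEnd ℂ) (Ω' t) * y t)
        + ((starRingEnd ℂ) (y s) * y s) * ((starRingEnd ℂ) (Ω' t) * Ω' t)) : ℂ).re := by
      intro s t
      rw [← conj_mul_re]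
      congr 1
      rw [hA2]
      simp only [map_sub, map_mul]
      ring
    have pp : ∀ a b c d : (V → Fin 2) → ℂ, ∑ s, ∑ t, ((starRingEnd ℂ) (a s) * b s) *
        ((starRingEnd ℂ) (c t) * d t) = ip a b * ip c d := by
      intro a b c d
      unfold ip
      rw [Finset.sum_mul_sum]
    have e2 : ∑ s, ∑ t, (‖A2 s t‖ ^ 2 : ℝ) = (∑ s, ∑ t, (((starRingEnd ℂ) (Ω' s) * Ω' s) * ((starRingEnd ℂ) (y t) * y t)
        - ((starRingEnd ℂ) (Ω' s) * y s) * ((starRingEnd ℂ) (y t) * Ω' t)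
        - ((starRingEnd ℂ) (y s) * Ω' s) * ((starRingEnd ℂ) (Ω' t) * y t)
        + ((starRingEnd ℂ) (y s) * y s) * ((starRingEnd ℂ) (Ω' t) * Ω' t)) : ℂ).re := by
      rw [Complex.re_sum]
      refine Finset.sum_congr rfl fun s _ => ?_
      rw [Complex.re_sum]
      exact Finset.sum_congr rfl fun t _ => e1 s t
    rw [e2]
    simp only [Finset.sum_add_distrib, Finset.sum_sub_distrib]
    rw [pp, pp, pp, pp, hΩ'Ω', hy, hy', ip_self]
    simp
    ring
  have hfn : ∑ k, ‖f k‖ ^ 2 = 2 * normSq y := by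
    rw [sum_mk (fun k => ‖f k‖ ^ 2)]
    simp only [hfm, norm_mul, mul_pow]
    rw [← hA2n]
    refine Finset.sum_congr rfl fun s _ => Finset.sum_congr rfl fun t _ => ?_
    simp only [← Finset.mul_sum]
    rw [hΩs]
    simp only [mul_one]
    rw [hΩs, mul_one]
  -- the energy of the trial vector
  have hen : (∑ k, ∑ k', (starRingEnd ℂ) (f k) * (M4 J g b b' k k' : ℂ) * f k').re =
      -(2 * (E' * normSq y + (qf (HH J g b') y).re) + 4 * E * normSq y) := by
    rw [form4]
    have q1 : ∀ t u v, qf (HH J g b') (fun a => f (mk a t u v)) =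
        ((‖Ω u * Ω v‖ ^ 2 : ℝ) : ℂ) * qf (HH J g b') (fun a => A2 a t) := by
      intro t u v
      rw [← qf_smul]
      congr 1
      funext a
      rw [hfm, Pi.smul_apply, smul_eq_mul]
      ring
    have q2 : ∀ s u v, qf (HH J g b') (fun a => f (mk s a u v)) =
        ((‖Ω u * Ω v‖ ^ 2 : ℝ) : ℂ) * qf (HH J g b') (fun a => A2 s a) := by
      intro s u v
      rw [← qf_smul]
      congr 1
      funext a
      rw [hfm, Pi.smul_apply, smul_eq_mul]
      ring
    have q3 : ∀ s t v, qf (HH J g b) (fun a => f (mk s t a v)) =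
        ((‖A2 s t * Ω v‖ ^ 2 : ℝ) : ℂ) * (E : ℂ) := by
      intro s t v
      rw [← hqΩ, ← qf_smul]
      congr 1
      funext a
      rw [hfm, Pi.smul_apply, smul_eq_mul]
      ring
    have q4 : ∀ s t u, qf (HH J g b) (fun a => f (mk s t u a)) =
        ((‖A2 s t * Ω u‖ ^ 2 : ℝ) : ℂ) * (E : ℂ) := by
      intro s t u
      rw [← hqΩ, ← qf_smul]
      congr 1
      funext a
      rw [hfm, Pi.smul_apply, smul_eq_mul]
      ring
    -- the form of the antisymmetric vector in one variable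
    have r1 : ∀ c d : ℂ, qf (HH J g b') (fun a => c * Ω' a - d * y a) =
        ((‖c‖ ^ 2 : ℝ) : ℂ) * E' + ((‖d‖ ^ 2 : ℝ) : ℂ) * qf (HH J g b') y := by
      intro c d
      have hv : (fun a => c * Ω' a - d * y a) = c • Ω' + (-d) • y := by
        funext a
        simp only [Pi.add_apply, Pi.smul_apply, smul_eq_mul]
        ring
      have hsplit : ∀ p q r s : (V → Fin 2) → ℂ, ip (p + q) (r + s) =
          ip p r + ip p s + ip q r + ip q s := by
        intro p q r s
        unfold ip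
        simp only [Pi.add_apply, map_add, ← Finset.sum_add_distrib]
        exact Finset.sum_congr rfl fun _ _ => by ring
      have hx : ip Ω' (HH J g b' *ᵥ y) = 0 := by
        rw [ip_mulVec _ (HH_herm J g b'), hE', ip_smul_left, hy, mul_zero]
      have hx' : ip y (HH J g b' *ᵥ Ω') = 0 := by
        rw [hE', ip_smul_right, hy', mul_zero]
      have hself : ip Ω' (HH J g b' *ᵥ Ω') = E' := hqΩ'
      rw [hv]
      unfold qf
      rw [Matrix.mulVec_add, hsplit, Matrix.mulVec_smul, Matrix.mulVec_smul]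
      simp only [ip_smul_left, ip_smul_right, hx, hx', hself, mul_zero, add_zero]
      rw [← conj_mul_self c, ← conj_mul_self d, map_neg]
      ring
    have r2 : ∑ t, qf (HH J g b') (fun a => A2 a t) =
        ((normSq y : ℝ) : ℂ) * E' + qf (HH J g b') y := by
      have e : ∀ t, qf (HH J g b') (fun a => A2 a t) =
          ((‖y t‖ ^ 2 : ℝ) : ℂ) * E' + ((‖Ω' t‖ ^ 2 : ℝ) : ℂ) * qf (HH J g b') y := by
        intro t
        rw [← r1 (y t) (Ω' t)]
        congr 1
        funext a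
        rw [hA2]
        ring
      rw [Finset.sum_congr rfl fun t _ => e t, Finset.sum_add_distrib, ← Finset.sum_mul,
        ← Finset.sum_mul, ← Complex.ofReal_sum, ← Complex.ofReal_sum, hΩ's, Complex.ofReal_one, one_mul]
      rfl
    have r3 : ∑ s, qf (HH J g b') (fun a => A2 s a) =
        ((normSq y : ℝ) : ℂ) * E' + qf (HH J g b') y := by
      rw [← r2]
      refine Finset.sum_congr rfl fun s _ => ?_
      rw [← qf_neg]
      congr 1
      funext a
      rw [Pi.neg_apply, hA2]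
      ring
    have m1 : ∑ u, ∑ v, ‖Ω u * Ω v‖ ^ 2 = 1 := by
      simp only [norm_mul, mul_pow, ← Finset.mul_sum]
      rw [hΩs]
      simp only [mul_one]
      exact hΩs
    have s1 : ∑ t, ∑ u, ∑ v, qf (HH J g b') (fun a => f (mk a t u v)) =
        ((normSq y : ℝ) : ℂ) * E' + qf (HH J g b') y := by
      rw [← r2]
      refine Finset.sum_congr rfl fun t _ => ?_
      simp only [q1, ← Finset.sum_mul, ← Complex.ofReal_sum]
      rw [m1, Complex.ofReal_one, one_mul]
    have s2 : ∑ s, ∑ u, ∑ v, qf (HH J g b') (fun a => f (mk s a u v)) =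
        ((normSq y : ℝ) : ℂ) * E' + qf (HH J g b') y := by
      rw [← r3]
      refine Finset.sum_congr rfl fun s _ => ?_
      simp only [q2, ← Finset.sum_mul, ← Complex.ofReal_sum]
      rw [m1, Complex.ofReal_one, one_mul]
    have m2 : ∑ s, ∑ t, ∑ v, ‖A2 s t * Ω v‖ ^ 2 = 2 * normSq y := by
      rw [← hA2n]
      refine Finset.sum_congr rfl fun s _ => Finset.sum_congr rfl fun t _ => ?_
      simp only [norm_mul, mul_pow, ← Finset.mul_sum]
      rw [hΩs, mul_one]
    have s3 : ∑ s, ∑ t, ∑ v, qf (HH J g b) (fun a => f (mk s t a v)) =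
        ((2 * normSq y : ℝ) : ℂ) * E := by
      simp only [q3, ← Finset.sum_mul, ← Complex.ofReal_sum]
      rw [m2]
    have s4 : ∑ s, ∑ t, ∑ u, qf (HH J g b) (fun a => f (mk s t u a)) =
        ((2 * normSq y : ℝ) : ℂ) * E := by
      simp only [q4, ← Finset.sum_mul, ← Complex.ofReal_sum]
      rw [m2]
    rw [s1, s2, s3, s4]
    simp only [Complex.neg_re, Complex.add_re, ← Complex.ofReal_mul, Complex.ofReal_re]
    ring
  -- the vector with the absolute values of the coefficients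
  have hle := form_le (M4 J g b b') (M4_nonneg J g b b' hJ hg hb hbb) f
  rw [hen] at hle
  have hab : ∑ k, ∑ k', ab f k * M4 J g b b' k k' * ab f k' ≤
      -((2 * E' + 2 * E + Δ) * (2 * normSq y)) := by
    set h : (V → K) → ℂ := fun k => (ab f k : ℂ) with hh
    have e0 : ∑ k, ∑ k', ab f k * M4 J g b b' k k' * ab f k' =
        (∑ k, ∑ k', (starRingEnd ℂ) (h k) * (M4 J g b b' k k' : ℂ) * h k').re := by
      rw [Complex.re_sum]
      refine Finset.sum_congr rfl fun k _ => ?_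
      rw [Complex.re_sum]
      refine Finset.sum_congr rfl fun k' _ => ?_
      rw [hh, Complex.conj_ofReal, ← Complex.ofReal_mul, ← Complex.ofReal_mul, Complex.ofReal_re]
    rw [e0]
    have hhn : ∑ k, ‖h k‖ ^ 2 = 2 * normSq y := by
      rw [← hfn, ab_norm f]
      refine Finset.sum_congr rfl fun k _ => ?_
      rw [hh, Complex.norm_real, Real.norm_eq_abs, sq_abs]
    have hanti : ∀ s t u v, h (mk s t v u) = -h (mk s t u v) := by
      intro s t u v
      have h1 : mk s t v u = SB (mk s t u v) := rfl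
      rw [h1]
      simp only [hh]
      rw [ab_SB f hfa hfb, Complex.ofReal_neg]
    have hl := lower4 J g b b' E' E Δ hΔ.le Ω hΩ hlow hform h hanti
    rw [hhn] at hl
    linarith
  nlinarith [hle.trans hab]

end mono

end Pool.Agent.KS6_99.IS
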