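import Pool.Graph.R_pool_sql_team_seeded_47a924f7.Results.MP_953b23_mp.InvertiblePhases
import Pool.Graph.R_pool_sql_team_seeded_3997aac3.Results.MP_953b23_mp.NearDecoratedProducts
import Pool.Agent.KS6_99.IS.Mono

/-!
Ferromagnetic quantum Ising interactions on the boxes of the torus.
-/

set_option autoImplicit false
set_option linter.unusedSectionVars false
set_option maxHeartbeats 1000000

open scoped BigOperators Matrix
open Finset Pool.Agent.TH235.PP

namespace Pool.Agent.KS6_99.IS

section relabel

variable {X Y : Type*} [Fintype X] [Fintype Y]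

theorem normSq_comp (c : X ≃ Y) (ψ : Y → ℂ) : normSq (ψ ∘ c) = normSq ψ := by
  unfold normSq
  exact c.sum_comp fun y => ‖ψ y‖ ^ 2

theorem mulVec_comp (c : X ≃ Y) (A : Matrix Y Y ℂ) (ψ : Y → ℂ) :
    (A.submatrix c c) *ᵥ (ψ ∘ c) = (A *ᵥ ψ) ∘ c := by
  funext x
  unfold Matrix.mulVec dotProduct
  simp only [Matrix.submatrix_apply, Function.comp_apply]
  exact c.sum_comp fun y => A (c x) y * ψ y

theorem gapped_comp (c : X ≃ Y) (A : Matrix Y Y ℂ) (Δ : ℝ) (ψ : Y → ℂ)
    (h : IsGappedGround A Δ ψ) : IsGappedGround (A.submatrix c c) Δ (ψ ∘ c) := by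
  obtain ⟨E, h1, h2, h3⟩ := h
  have back : ∀ φ : X → ℂ, φ = (φ ∘ c.symm) ∘ c := fun φ => by
    funext x
    simp
  refine ⟨E, ?_, ?_, ?_⟩
  · rw [mulVec_comp, h1]
    rfl
  · intro φ hφ
    rw [back φ, mulVec_comp] at hφ
    have h4 : A *ᵥ (φ ∘ c.symm) = (E : ℂ) • (φ ∘ c.symm) := by
      funext y
      have := congrFun hφ (c.symm y)
      simpa using this
    obtain ⟨z, hz⟩ := h2 _ h4
    refine ⟨z, ?_⟩
    rw [back φ, hz]
    rfl
  · intro E' φ hφ0 hφ
    rw [back φ, mulVec_comp] at hφ
    have h4 : A *ᵥ (φ ∘ c.symm) = (E' : ℂ) • (φ ∘ c.symm) := by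
      funext y
      have := congrFun hφ (c.symm y)
      simpa using this
    refine h3 E' (φ ∘ c.symm) ?_ h4
    intro h0
    apply hφ0
    rw [back φ, h0]
    rfl

theorem gapped_comp_iff (c : X ≃ Y) (A : Matrix Y Y ℂ) (Δ : ℝ) (ψ : X → ℂ)
    (h : IsGappedGround (A.submatrix c c) Δ ψ) : IsGappedGround A Δ (ψ ∘ c.symm) := by
  have h1 := gapped_comp c.symm (A.submatrix c c) Δ ψ h
  have h2 : (A.submatrix c c).submatrix c.symm c.symm = A := by
    ext x y
    simp
  rwa [h2] at h1

/-- scaling of the Hamiltonian -/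
theorem gapped_scale {A : Matrix X X ℂ} {Δ : ℝ} {ψ : X → ℂ} (h : IsGappedGround A Δ ψ) (T : ℝ)
    (hT : 0 < T) : IsGappedGround ((T : ℂ) • A) (T * Δ) ψ := by
  obtain ⟨E, h1, h2, h3⟩ := h
  have hTc : (T : ℂ) ≠ 0 := by exact_mod_cast hT.ne'
  have back : ∀ (E' : ℝ) (φ : X → ℂ), ((T : ℂ) • A) *ᵥ φ = (E' : ℂ) • φ →
      A *ᵥ φ = ((E' / T : ℝ) : ℂ) • φ := by
    intro E' φ hφ
    rw [Matrix.smul_mulVec] at hφ
    have h4 : (T : ℂ)⁻¹ • ((T : ℂ) • A *ᵥ φ) = (T : ℂ)⁻¹ • ((E' : ℂ) • φ) := by rw [hφ]
    rw [smul_smul, inv_mul_cancel₀ hTc, one_smul, smul_smul] at h4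
    rw [h4]
    congr 1
    push_cast
    ring
  refine ⟨T * E, ?_, ?_, ?_⟩
  · rw [Matrix.smul_mulVec, h1, smul_smul]
    push_cast
    rfl
  · intro φ hφ
    apply h2
    have := back (T * E) φ hφ
    rwa [mul_div_cancel_left₀ _ hT.ne'] at this
  · intro E' φ hφ0 hφ
    rcases h3 (E' / T) φ hφ0 (back E' φ hφ) with h4 | h4
    · left
      rw [← h4]
      field_simp
    · right
      rw [le_div_iff₀ hT] at h4
      linarith

end relabel

variable {n d R L : ℕ}

/-- the spins in the box -/
abbrev BV (R n : ℕ) : Type := (Fin R × Fin R) × Fin n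

/-- the spins of the torus -/
abbrev TV (L n : ℕ) : Type := Site L × Fin n

/-- the box at `u` -/
def pos (u : Site L) (v : BV R n) : TV L n := (sh u v.1, v.2)

/-- the spin configuration -/
def cfgE (e : Fin d ≃ (Fin n → Fin 2)) : (Site L → Fin d) ≃ (TV L n → Fin 2) where
  toFun s := fun v => e (s v.1) v.2
  invFun f := fun x => e.symm fun i => f (x, i)
  left_inv s := by
    funext x
    simp
  right_inv f := by
    funext v
    simp

/-- the interaction on the box -/
noncomputable def boxH (e : Fin d ≃ (Fin n → Fin 2)) (J : BV R n → BV R n → ℝ) (g b : BV R n → ℝ) :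
    BoxOp d R := fun P Q => HH J g b (fun v => e (P v.1) v.2) (fun v => e (Q v.1) v.2)

/-- the couplings on the torus -/
noncomputable def pJ [NeZero L] (J : BV R n → BV R n → ℝ) (x y : TV L n) : ℝ :=
  ∑ u : Site L, ∑ p, ∑ q, if pos u p = x ∧ pos u q = y then J p q else 0

/-- the fields on the torus -/
noncomputable def pb [NeZero L] (b : BV R n → ℝ) (x : TV L n) : ℝ :=
  ∑ u : Site L, ∑ p, if pos u p = x then b p else 0

theorem cast_inj' {N : ℕ} (hNL : N ≤ L) (i j : Fin N)
    (h : ((i : ℕ) : ZMod L) = ((j : ℕ) : ZMod L)) : i = j := by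
  rw [ZMod.natCast_eq_natCast_iff'] at h
  rw [Nat.mod_eq_of_lt (i.2.trans_le hNL), Nat.mod_eq_of_lt (j.2.trans_le hNL)] at h
  exact Fin.ext h

theorem sh_inj' (hNL : R ≤ L) (u : Site L) {x y : Fin R × Fin R} (h : sh u x = sh u y) : x = y := by
  unfold sh at h
  rw [Prod.mk.injEq, add_right_inj, add_right_inj] at h
  exact Prod.ext (cast_inj' hNL _ _ h.1) (cast_inj' hNL _ _ h.2)

theorem pos_inj (hRL : R ≤ L) (u : Site L) {v w : BV R n} (h : pos u v = pos u w) : v = w := by
  unfold pos at h
  rw [Prod.mk.injEq] at h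
  exact Prod.ext (sh_inj' hRL u h.1) h.2

theorem Dg_push [NeZero L] (J : BV R n → BV R n → ℝ) (b : BV R n → ℝ) (s : TV L n → Fin 2) :
    Dg (pJ J) (pb b) s = ∑ u : Site L, Dg J b (fun v => s (pos u v)) := by
  unfold Dg pJ pb
  rw [Finset.sum_add_distrib]
  congr 1
  · have h1 : ∀ x y : TV L n, (∑ u : Site L, ∑ p, ∑ q, if pos u p = x ∧ pos u q = y then J p q else 0) *
        ((sg (s x) * sg (s y) : ℤ) : ℝ) =
        ∑ u : Site L, ∑ p, ∑ q, if pos u p = x ∧ pos u q = y then
          J p q * ((sg (s (pos u p)) * sg (s (pos u q)) : ℤ) : ℝ) else 0 := by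
      intro x y
      simp only [Finset.sum_mul]
      refine Finset.sum_congr rfl fun u _ => Finset.sum_congr rfl fun p _ =>
        Finset.sum_congr rfl fun q _ => ?_
      split_ifs with h
      · rw [h.1, h.2]
      · rw [zero_mul]
    simp only [h1]
    rw [Finset.sum_congr rfl fun x _ => Finset.sum_comm, Finset.sum_comm]
    refine Finset.sum_congr rfl fun u _ => ?_
    rw [Finset.sum_congr rfl fun x _ => Finset.sum_comm, Finset.sum_comm]
    refine Finset.sum_congr rfl fun p _ => ?_
    rw [Finset.sum_congr rfl fun x _ => Finset.sum_comm, Finset.sum_comm]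
    refine Finset.sum_congr rfl fun q _ => ?_
    rw [Finset.sum_eq_single (pos u p), Finset.sum_eq_single (pos u q), if_pos ⟨rfl, rfl⟩]
    · intro y _ hy
      rw [if_neg fun h => hy h.2.symm]
    · intro h
      exact absurd (mem_univ _) h
    · intro x _ hx
      refine Finset.sum_eq_zero fun y _ => ?_
      rw [if_neg fun h => hx h.1.symm]
    · intro h
      exact absurd (mem_univ _) h
  · have h1 : ∀ x : TV L n, (∑ u : Site L, ∑ p, if pos u p = x then b p else 0) *
        ((sg (s x) : ℤ) : ℝ) =
        ∑ u : Site L, ∑ p, if pos u p = x then b p * ((sg (s (pos u p)) : ℤ) : ℝ) else 0 := by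
      intro x
      simp only [Finset.sum_mul]
      refine Finset.sum_congr rfl fun u _ => Finset.sum_congr rfl fun p _ => ?_
      split_ifs with h
      · rw [h]
      · rw [zero_mul]
    simp only [h1]
    rw [Finset.sum_comm]
    refine Finset.sum_congr rfl fun u _ => ?_
    rw [Finset.sum_comm]
    refine Finset.sum_congr rfl fun p _ => ?_
    rw [Finset.sum_ite_eq, if_pos (mem_univ _)]

theorem fp_push [NeZero L] (g : BV R n → ℝ) (s t : TV L n → Fin 2) :
    ∑ x, pb g x * (if t = fp x s then 1 else 0) =
      ∑ u : Site L, ∑ p, g p * (if t = fp (pos u p) s then 1 else 0) := by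
  unfold pb
  simp only [Finset.sum_mul]
  rw [Finset.sum_comm]
  refine Finset.sum_congr rfl fun u _ => ?_
  rw [Finset.sum_comm]
  refine Finset.sum_congr rfl fun p _ => ?_
  have h1 : ∀ x : TV L n, (if pos u p = x then g p else 0) * (if t = fp x s then 1 else 0) =
      if pos u p = x then g p * (if t = fp (pos u p) s then 1 else 0) else 0 := by
    intro x
    by_cases h : pos u p = x
    · rw [if_pos h, if_pos h, h]
    · rw [if_neg h, if_neg h, zero_mul]
  rw [Finset.sum_congr rfl fun x _ => h1 x, Finset.sum_ite_eq, if_pos (mem_univ _)]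

/-- one translate of the interaction -/
theorem term_boxH [NeZero L] (hRL : R ≤ L) (e : Fin d ≃ (Fin n → Fin 2)) (J : BV R n → BV R n → ℝ)
    (g b : BV R n → ℝ) (u : Site L) (s t : Site L → Fin d) :
    term (boxH e J g b) u s t =
      -(((if s = t then Dg J b (fun v => cfgE e s (pos u v)) else 0) +
        ∑ p, g p * (if cfgE e t = fp (pos u p) (cfgE e s) then 1 else 0) : ℝ) : ℂ) := by
  classical
  unfold term
  by_cases hc : ∀ v, (∀ x : Fin R × Fin R, sh u x ≠ v) → s v = t v
  · rw [if_pos hc]
    unfold boxH HH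
    congr 2
    congr 1
    · have h1 : ((fun v : BV R n => e (s (sh u v.1)) v.2) = fun v : BV R n => e (t (sh u v.1)) v.2) ↔
          s = t := by
        constructor
        · intro h
          funext x
          by_cases hx : ∀ y : Fin R × Fin R, sh u y ≠ x
          · exact hc x hx
          · push Not at hx
            obtain ⟨y, rfl⟩ := hx
            apply e.injective
            funext i
            exact congrFun h (y, i)
        · rintro rfl
          rfl
      by_cases h : s = t
      · rw [if_pos (h1.2 h), if_pos h]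
        rfl
      · rw [if_neg (fun h2 => h (h1.1 h2)), if_neg h]
    · refine Finset.sum_congr rfl fun p _ => ?_
      congr 1
      have h1 : ((fun v : BV R n => e (t (sh u v.1)) v.2) = fp p (fun v : BV R n => e (s (sh u v.1)) v.2)) ↔
          cfgE e t = fp (pos u p) (cfgE e s) := by
        constructor
        · intro h
          funext x
          by_cases hx : ∀ y : Fin R × Fin R, sh u y ≠ x.1
          · have hne : x ≠ pos u p := by
              rintro rfl
              exact hx p.1 rfl
            unfold fp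
            rw [Function.update_of_ne hne]
            change e (t x.1) x.2 = e (s x.1) x.2
            rw [hc x.1 hx]
          · push Not at hx
            obtain ⟨y, hy⟩ := hx
            have hx' : x = pos u (y, x.2) := by
              unfold pos
              rw [hy]
            have h2 := congrFun h (y, x.2)
            rw [hx']
            change e (t (sh u y)) x.2 = _
            have h3 : e (t (sh u y)) x.2 = fp p (fun v : BV R n => e (s (sh u v.1)) v.2) (y, x.2) := h2
            rw [h3]
            unfold fp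
            by_cases hp : (y, x.2) = p
            · rw [← hp, Function.update_self, Function.update_self]
              rfl
            · rw [Function.update_of_ne hp,
                Function.update_of_ne (fun h4 => hp (pos_inj hRL u h4))]
              rfl
        · intro h
          funext v
          have h2 := congrFun h (pos u v)
          have h3 : e (t (sh u v.1)) v.2 = fp (pos u p) (cfgE e s) (pos u v) := h2
          rw [h3]
          unfold fp
          by_cases hp : v = p
          · rw [hp, Function.update_self, Function.update_self]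
            rfl
          · rw [Function.update_of_ne hp, Function.update_of_ne (fun h4 => hp (pos_inj hRL u h4))]
            rfl
      by_cases h : cfgE e t = fp (pos u p) (cfgE e s)
      · rw [if_pos (h1.2 h), if_pos h]
      · rw [if_neg (fun h2 => h (h1.1 h2)), if_neg h]
  · rw [if_neg hc]
    have h1 : s ≠ t := by
      rintro rfl
      exact hc fun v _ => rfl
    have h2 : ∀ p : BV R n, cfgE e t ≠ fp (pos u p) (cfgE e s) := by
      intro p h
      apply hc
      intro x hx
      apply e.injective
      funext i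
      have h3 := congrFun h (x, i)
      have hne : ((x, i) : TV L n) ≠ pos u p := by
        intro h4
        exact hx p.1 (congrArg Prod.fst h4).symm
      unfold fp at h3
      rw [Function.update_of_ne hne] at h3
      exact h3.symm
    rw [if_neg h1]
    simp [h2]

/-- the Hamiltonian on the torus is a quantum Ising model -/
theorem ham_boxH [NeZero L] (hRL : R ≤ L) (e : Fin d ≃ (Fin n → Fin 2)) (J : BV R n → BV R n → ℝ)
    (g b : BV R n → ℝ) :
    ham (boxH e J g b) L = (HH (pJ (L := L) J) (pb g) (pb b)).submatrix (cfgE e) (cfgE e) := by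
  ext s t
  unfold ham
  rw [Matrix.sum_apply, Finset.sum_congr rfl fun u _ => term_boxH hRL e J g b u s t]
  rw [Matrix.submatrix_apply]
  unfold HH
  rw [Finset.sum_neg_distrib, ← Complex.ofReal_sum, Finset.sum_add_distrib, fp_push, Dg_push]
  congr 2
  congr 1
  by_cases h : s = t
  · rw [if_pos (congrArg (cfgE e) h)]
    simp only [if_pos h]
  · rw [if_neg (fun h2 => h ((cfgE e).injective h2))]
    simp only [if_neg h, Finset.sum_const_zero]

theorem boxH_herm (e : Fin d ≃ (Fin n → Fin 2)) (J : BV R n → BV R n → ℝ) (g b : BV R n → ℝ) :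
    (boxH e J g b).IsHermitian := by
  ext P Q
  exact (HH_herm J g b).apply _ _

/-- the number of the positions of a box which contain a given site -/
theorem pb_const [NeZero L] (c : ℝ) (x : TV L n) : pb (R := R) (fun _ => c) x = R ^ 2 * c := by
  unfold pb
  rw [Finset.sum_comm]
  have h1 : ∀ p : BV R n, ∑ u : Site L, (if pos u p = x then c else 0) = if p.2 = x.2 then c else 0 := by
    intro p
    by_cases hp : p.2 = x.2
    · rw [if_pos hp]
      rw [Finset.sum_eq_single ((x.1.1 - ((p.1.1 : ℕ) : ZMod L), x.1.2 - ((p.1.2 : ℕ) : ZMod L)) : Site L)]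
      · rw [if_pos]
        unfold pos sh
        simp [hp]
      · intro u _ hu
        rw [if_neg]
        intro h
        apply hu
        unfold pos sh at h
        rw [← h]
        simp
      · intro h
        exact absurd (mem_univ _) h
    · rw [if_neg hp]
      refine Finset.sum_eq_zero fun u _ => ?_
      rw [if_neg]
      intro h
      exact hp (congrArg Prod.snd h)
  rw [Finset.sum_congr rfl fun p _ => h1 p, Fintype.sum_prod_type]
  simp only [Finset.sum_ite_eq', mem_univ, if_true, Finset.sum_const, Finset.card_univ,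
    Fintype.card_prod, Fintype.card_fin, nsmul_eq_mul]
  push_cast
  ring

theorem pb_add [NeZero L] (b c : BV R n → ℝ) (x : TV L n) :
    pb (fun v => b v + c v) x = pb b x + pb c x := by
  unfold pb
  rw [← Finset.sum_add_distrib]
  refine Finset.sum_congr rfl fun u _ => ?_
  rw [← Finset.sum_add_distrib]
  refine Finset.sum_congr rfl fun p _ => ?_
  split_ifs <;> simp

theorem pb_nonneg [NeZero L] (b : BV R n → ℝ) (hb : ∀ v, 0 ≤ b v) (x : TV L n) : 0 ≤ pb b x :=
  Finset.sum_nonneg fun u _ => Finset.sum_nonneg fun p _ => by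
    split_ifs
    · exact hb p
    · exact le_rfl

theorem pJ_nonneg [NeZero L] (J : BV R n → BV R n → ℝ) (hJ : ∀ v w, 0 ≤ J v w) (x y : TV L n) :
    0 ≤ pJ J x y :=
  Finset.sum_nonneg fun u _ => Finset.sum_nonneg fun p _ => Finset.sum_nonneg fun q _ => by
    split_ifs
    · exact hJ p q
    · exact le_rfl

end Pool.Agent.KS6_99.IS
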