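import Pool.Agent.KS6_99.IS.Lattice

/-!
PEPS approximation for all gapped ferromagnetic quantum Ising families.
-/

set_option autoImplicit false
set_option linter.unusedSectionVars false
set_option maxHeartbeats 1000000

open scoped BigOperators Matrix
open Finset Pool.Agent.TH235.PP

namespace Pool.Agent.KS6_99.IS

variable {n d R L : ℕ}

/-- the field term at one site -/
noncomputable def aa (e : Fin d ≃ (Fin n → Fin 2)) : Matrix (Fin d) (Fin d) ℂ :=
  Matrix.diagonal fun a => ((-(∑ i, sg (e a i)) : ℤ) : ℂ)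

theorem aa_herm (e : Fin d ≃ (Fin n → Fin 2)) : (aa e).IsHermitian := by
  unfold aa
  rw [Matrix.isHermitian_diagonal_iff]
  intro i
  rw [isSelfAdjoint_iff, Complex.star_def, map_intCast]

theorem sg_le (a : Fin 2) : sg a ≤ 1 := by
  revert a
  decide

theorem sg_ne (a : Fin 2) (h : a ≠ 0) : sg a = -1 := by
  revert a
  decide

theorem aa_gap (e : Fin d ≃ (Fin n → Fin 2)) :
    IsGappedGround (aa e) 2 (Pi.single (e.symm 0) 1) := by
  have hmv : ∀ (φ : Fin d → ℂ) (a : Fin d), (aa e *ᵥ φ) a = ((-(∑ i, sg (e a i)) : ℤ) : ℂ) * φ a := by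
    intro φ a
    unfold aa
    rw [Matrix.mulVec_diagonal]
  have h0 : ∑ i, sg (e (e.symm 0) i) = n := by
    rw [Equiv.apply_symm_apply]
    simp [sg]
  have hother : ∀ a : Fin d, a ≠ e.symm 0 → -(n : ℤ) + 2 ≤ -(∑ i, sg (e a i)) := by
    intro a ha
    obtain ⟨j, hj⟩ : ∃ j, e a j ≠ 0 := by
      by_contra hc
      push Not at hc
      apply ha
      rw [Equiv.eq_symm_apply]
      exact funext hc
    have h1 : ∑ i, sg (e a i) ≤ n - 2 := by
      rw [← Finset.add_sum_erase _ _ (mem_univ j), sg_ne _ hj]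
      have h2 : ∑ i ∈ univ.erase j, sg (e a i) ≤ ∑ _i ∈ univ.erase j, (1 : ℤ) :=
        Finset.sum_le_sum fun i _ => sg_le _
      rw [Finset.sum_const, Finset.card_erase_of_mem (mem_univ j), Finset.card_univ,
        Fintype.card_fin, nsmul_eq_mul, mul_one] at h2
      have h3 : 1 ≤ n := Fin.pos_iff_nonempty.2 ⟨j⟩
      push_cast [h3] at h2
      linarith
    linarith
  refine ⟨-(n : ℝ), ?_, ?_, ?_⟩
  · funext a
    rw [hmv, Pi.smul_apply, smul_eq_mul]
    by_cases ha : a = e.symm 0
    · subst ha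
      rw [h0]
      push_cast
      ring
    · rw [Pi.single_eq_of_ne ha, mul_zero, mul_zero]
  · intro φ hφ
    refine ⟨φ (e.symm 0), ?_⟩
    funext a
    rw [Pi.smul_apply, smul_eq_mul]
    by_cases ha : a = e.symm 0
    · subst ha
      rw [Pi.single_eq_same, mul_one]
    · rw [Pi.single_eq_of_ne ha, mul_zero]
      have h1 := congrFun hφ a
      rw [hmv, Pi.smul_apply, smul_eq_mul] at h1
      have h2 := hother a ha
      have h3 : (((-(∑ i, sg (e a i)) : ℤ) : ℂ) - ((-(n : ℝ) : ℝ) : ℂ)) * φ a = 0 := by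
        linear_combination h1
      rcases mul_eq_zero.1 h3 with h4 | h4
      · exfalso
        have h5 : ((-(∑ i, sg (e a i)) : ℤ) : ℂ) = ((-(n : ℤ) : ℤ) : ℂ) := by
          have h6 := sub_eq_zero.1 h4
          rw [h6]
          push_cast
          rfl
        have h6 : (-(∑ i, sg (e a i)) : ℤ) = -(n : ℤ) := by exact_mod_cast h5
        linarith
      · exact h4
  · intro E' φ hφ0 hφ
    obtain ⟨a, ha⟩ : ∃ a, φ a ≠ 0 := by
      by_contra hc
      push Not at hc
      exact hφ0 (funext hc)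
    have h1 := congrFun hφ a
    rw [hmv, Pi.smul_apply, smul_eq_mul] at h1
    have h2 : ((-(∑ i, sg (e a i)) : ℤ) : ℂ) = (E' : ℂ) := mul_right_cancel₀ ha h1
    have h3 : ((-(∑ i, sg (e a i)) : ℤ) : ℝ) = E' := by exact_mod_cast h2
    by_cases ha0 : a = e.symm 0
    · left
      rw [← h3, ha0, h0]
      push_cast
      rfl
    · right
      rw [← h3]
      have h4 := hother a ha0
      have h5 : ((-(n : ℤ) + 2 : ℤ) : ℝ) ≤ ((-(∑ i, sg (e a i)) : ℤ) : ℝ) := by exact_mod_cast h4
      push_cast at h5 ⊢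
      linarith

theorem ham_oneSite [NeZero L] (e : Fin d ≃ (Fin n → Fin 2)) (s t : Site L → Fin d) :
    ham (Pool.Agent.Results.MP_953b23_mp.NearDecoratedProducts.oneSite (aa e)) L s t =
      if s = t then -∑ x : TV L n, ((sg (cfgE e s x) : ℤ) : ℂ) else 0 := by
  classical
  unfold ham
  rw [Matrix.sum_apply]
  have h1 : ∀ u : Site L, term (Pool.Agent.Results.MP_953b23_mp.NearDecoratedProducts.oneSite (aa e)) u s t =
      if s = t then -∑ i, ((sg (e (s u) i) : ℤ) : ℂ) else 0 := by
    intro u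
    have hsh : ∀ x : Fin 1 × Fin 1, sh u x = u := by
      intro x
      have hx : x = (0, 0) := Subsingleton.elim _ _
      rw [hx]
      unfold sh
      simp
    unfold term Pool.Agent.Results.MP_953b23_mp.NearDecoratedProducts.oneSite aa
    simp only [hsh]
    by_cases hst : s = t
    · subst hst
      rw [if_pos rfl, if_pos (fun v _ => rfl), Matrix.diagonal_apply_eq]
      push_cast
      rfl
    · rw [if_neg hst]
      split_ifs with hc
      · apply Matrix.diagonal_apply_ne
        intro hu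
        apply hst
        funext v
        by_cases hv : u = v
        · rw [← hv]
          exact hu
        · exact hc v fun _ => hv
      · rfl
  rw [Finset.sum_congr rfl fun u _ => h1 u]
  by_cases hst : s = t
  · simp only [if_pos hst]
    rw [Finset.sum_neg_distrib]
    exact congrArg Neg.neg
      (Fintype.sum_prod_type (fun x : TV L n => ((sg (cfgE e s x) : ℤ) : ℂ))).symm
  · simp only [if_neg hst, Finset.sum_const_zero]

theorem HH_add {V : Type*} [Fintype V] [DecidableEq V] (J : V → V → ℝ) (g b : V → ℝ) (c : ℝ)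
    (s t : V → Fin 2) : HH J g (fun v => b v + c) s t =
      HH J g b s t + (c : ℂ) * (if s = t then -∑ x, ((sg (s x) : ℤ) : ℂ) else 0) := by
  unfold HH Dg
  by_cases h : s = t
  · simp only [if_pos h, add_mul, Finset.sum_add_distrib, ← Finset.mul_sum]
    push_cast
    ring
  · simp only [if_neg h]
    ring

/-- the field term on the box -/
noncomputable def fieldH (R : ℕ) (e : Fin d ≃ (Fin n → Fin 2)) : BoxOp d R := fun P Q =>
  if P = Q then -∑ v : BV R n, ((sg (e (P v.1) v.2) : ℤ) : ℂ) else 0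

theorem boxH_add (e : Fin d ≃ (Fin n → Fin 2)) (J : BV R n → BV R n → ℝ) (g b : BV R n → ℝ) (c : ℝ) :
    boxH e J g (fun v => b v + c) = boxH e J g b + (c : ℂ) • fieldH R e := by
  ext P Q
  rw [Matrix.add_apply, Matrix.smul_apply, smul_eq_mul]
  unfold boxH fieldH
  rw [HH_add]
  congr 2
  have h1 : ((fun v : BV R n => e (P v.1) v.2) = fun v : BV R n => e (Q v.1) v.2) ↔ P = Q := by
    constructor
    · intro h
      funext x
      apply e.injective
      funext i
      exact congrFun h (x, i)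
    · rintro rfl
      rfl
  by_cases h : P = Q
  · rw [if_pos (h1.2 h), if_pos h]
  · rw [if_neg (fun h2 => h (h1.1 h2)), if_neg h]

/-- strong fields: the Hamiltonian is a small perturbation of the field term -/
theorem strong [NeZero L] (hRL : R ≤ L) (hR : 0 < R) (e : Fin d ≃ (Fin n → Fin 2))
    (J : BV R n → BV R n → ℝ) (g b : BV R n → ℝ) (T : ℝ) (hT : 0 < T) :
    ham (boxH e J g (fun v => b v + T / R ^ 2)) L =
      (T : ℂ) • (ham (Pool.Agent.Results.MP_953b23_mp.NearDecoratedProducts.oneSite (aa e)) L +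
        ham (((T⁻¹ : ℝ) : ℂ) • boxH e J g b) L) := by
  have hTc : (T : ℂ) ≠ 0 := by exact_mod_cast hT.ne'
  have hR2 : (R : ℝ) ^ 2 ≠ 0 := by positivity
  rw [Pool.Agent.Q234.KG.Loc.ham_smul, smul_add, smul_smul]
  have h1 : (T : ℂ) * ((T⁻¹ : ℝ) : ℂ) = 1 := by
    rw [← Complex.ofReal_mul, mul_inv_cancel₀ hT.ne', Complex.ofReal_one]
  rw [h1, one_smul, ham_boxH hRL, ham_boxH hRL]
  ext s t
  rw [Matrix.add_apply, Matrix.smul_apply, Matrix.submatrix_apply, Matrix.submatrix_apply,
    ham_oneSite, smul_eq_mul]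
  have h2 : (pb (L := L) fun v : BV R n => b v + T / R ^ 2) = fun v => pb b v + T := by
    funext v
    rw [pb_add, pb_const]
    congr 1
    field_simp
  rw [h2, HH_add, add_comm]
  congr 2
  by_cases h : s = t
  · rw [if_pos (congrArg (cfgE e) h), if_pos h]
  · rw [if_neg (fun h2 => h ((cfgE e).injective h2)), if_neg h]

theorem stack_one (e' : Fin d × Fin 1 ≃ Fin d) (he' : ∀ a, (e'.symm a).1 = a)
    (Ψ : (Site L → Fin d) → ℂ) :
    Pool.Agent.Results.MP_953b23_mp.InvertiblePhases.stack e' Ψ (fun _ => 1) = Ψ := by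
  funext s
  unfold Pool.Agent.Results.MP_953b23_mp.InvertiblePhases.stack
  rw [mul_one]
  congr 1
  funext x
  exact he' (s x)

open scoped Matrix.Norms.L2Operator in
open Pool.Agent.Results.MP_953b23_mp.OverlapBoosting Pool.Agent.Results.MP_953b23_mp.InvertiblePhases in
/-- PEPS approximation for all gapped ferromagnetic quantum Ising families -/
theorem main (e : Fin d ≃ (Fin n → Fin 2)) (J : BV R n → BV R n → ℝ) (g b : BV R n → ℝ)
    (hJ : ∀ v w, 0 ≤ J v w) (hg : ∀ v, 0 ≤ g v) (hb : ∀ v, 0 ≤ b v) (Δ : ℝ)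
    (Ψ : ∀ L : ℕ, (Site L → Fin d) → ℂ) (hF : GappedFamily (boxH e J g b) Δ Ψ) (c : ℝ) (hc : 0 < c) :
    ∃ C : ℝ, Approx Ψ 5 C fun L => (L : ℝ) ^ (-c) := by
  have hR := hF.range_pos
  have hΔ := hF.gap_pos
  obtain ⟨L₀, hL₀⟩ := hF.ground
  have hR2 : (0 : ℝ) < (R : ℝ) ^ 2 := by positivity
  have hf0 : (Pi.single (e.symm 0) 1 : Fin d → ℂ) ≠ 0 := by
    intro h
    have := congrFun h (e.symm 0)
    rw [Pi.single_eq_same] at this
    exact one_ne_zero this
  obtain ⟨h₀, -, hh₀, hnear⟩ := Pool.Agent.Results.MP_953b23_mp.NearDecoratedProducts.result d (aa e) 2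
    (Pi.single (e.symm 0) 1) (aa_herm e) (by norm_num) hf0 (aa_gap e) 0 (fun _ => 1)
    (fun _ => by simp)
  obtain ⟨δ, C₁, hδ, hC₁, hnear⟩ := hnear R 1 hR (by norm_num)
  set T : ℝ := nJ (boxH e J g b) / δ + 1 with hTdef
  have hnJ := nJ_nonneg (boxH e J g b)
  have hT1 : 1 ≤ T := by
    have : 0 ≤ nJ (boxH e J g b) / δ := by positivity
    linarith
  have hT : 0 < T := by linarith
  set β : ℝ := T / R ^ 2 with hβdef
  have hβ : 0 < β := by positivity
  set k : BoxOp d R := ((T⁻¹ : ℝ) : ℂ) • boxH e J g b with hk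
  have hkH : k.IsHermitian := by
    rw [hk]
    ext P Q
    rw [Matrix.conjTranspose_apply, Matrix.smul_apply, Matrix.smul_apply, smul_eq_mul, smul_eq_mul,
      star_mul', Complex.star_def, Complex.conj_ofReal]
    congr 1
    exact (boxH_herm e J g b).apply _ _
  have hkδ : ∀ P Q, ‖k P Q‖ ≤ δ := by
    intro P Q
    rw [hk, Matrix.smul_apply, smul_eq_mul, norm_mul, Complex.norm_real, Real.norm_eq_abs,
      abs_of_pos (inv_pos.2 hT), inv_mul_le_iff₀ hT]
    have h1 : ‖boxH e J g b P Q‖ ≤ nJ (boxH e J g b) := by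
      unfold nJ
      refine (Finset.single_le_sum (f := fun q => ‖boxH e J g b P q‖)
        (fun _ _ => norm_nonneg _) (mem_univ Q)).trans ?_
      exact Finset.single_le_sum (f := fun p => ∑ q, ‖boxH e J g b p q‖)
        (fun _ _ => Finset.sum_nonneg fun _ _ => norm_nonneg _) (mem_univ P)
    have h2 : nJ (boxH e J g b) ≤ T * δ := by
      rw [hTdef, add_mul, div_mul_cancel₀ _ hδ.ne']
      linarith
    exact h1.trans h2
  -- the parameter
  set p : ℝ := R + 1 / Δ + 1 + nJ (boxH e J g b) + β * nJ (fieldH R e) with hp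
  have hnF := nJ_nonneg (fieldH (n := n) (d := d) R e)
  have hΔi : 0 < 1 / Δ := by positivity
  have hRr : (1 : ℝ) ≤ R := by exact_mod_cast hR
  have hβF : 0 ≤ β * nJ (fieldH (n := n) (d := d) R e) := by positivity
  have hp1 : 1 ≤ p := by rw [hp]; linarith
  have hp0 : 0 < p := by linarith
  have hpΔ : 1 / p ≤ Δ := by
    rw [div_le_iff₀ hp0]
    have h1 : 1 / Δ ≤ p := by rw [hp]; linarith
    rw [div_le_iff₀ hΔ] at h1
    linarith
  have hpT : 1 / p ≤ T * (2 / 2) := by
    rw [div_le_iff₀ hp0]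
    nlinarith
  -- the second parameter
  set C₂ : ℝ := |Real.log (4 * C₁)| + 2 with hC₂
  have hC₂0 : 2 ≤ C₂ := by
    rw [hC₂]
    linarith [abs_nonneg (Real.log (4 * C₁))]
  refine Pool.Agent.Results.MP_953b23_mp.InvertiblePhases.result d R (boxH e J g b) Δ Ψ hF 0 1 p C₂
    le_rfl ⟨max L₀ (R + 3), ?_⟩ c hc
  intro L _ hL
  rw [max_le_iff] at hL
  obtain ⟨hLa, hLb⟩ := hL
  obtain ⟨hn1, hgr⟩ := hL₀ L hLa
  have hRL : R ≤ L := by omega
  obtain ⟨Ψ₀, hΨ₀n, hΨ₀g, hΨ₀p⟩ := hnear k hkH hkδ L (by omega)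
  have hlog1 : 1 ≤ Real.log L := log_ge_one (by omega)
  have hLpos : (0 : ℝ) < L := by
    have : (3 : ℝ) ≤ L := by exact_mod_cast (by omega : 3 ≤ L)
    linarith
  rw [pow_zero, mul_one, pow_one]
  -- the end of strong fields
  have hend : ham (boxH e J g (fun v => b v + β)) L = (T : ℂ) • (ham h₀ L + ham k L) := by
    rw [hβdef, strong hRL hR e J g b T hT]
    congr 2
    ext s t
    rw [hh₀ L (by omega) s t]
    unfold Pool.Agent.Results.MP_953b23_mp.NearDecoratedProducts.phase
    simp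
  have hend' : IsGappedGround (ham (boxH e J g (fun v => b v + β)) L) (1 / p) Ψ₀ := by
    rw [hend]
    exact Pool.Agent.T6.H19.PQ.gapped_mono (gapped_scale hΨ₀g T hT) hpT
  -- the intermediate ground states
  have hmid : ∀ s : ℝ, s ≤ 1 → ∃ Φ : (Site L → Fin d) → ℂ, normSq Φ = 1 ∧
      IsGappedGround (ham (boxH e J g (fun v => b v + (1 - s) * β)) L) (1 / p) Φ := by
    intro s hs
    have h1 := hgr
    rw [ham_boxH hRL] at h1
    have h2 := gapped_comp_iff _ _ _ _ h1
    have h3 : normSq (Ψ L ∘ (cfgE (L := L) e).symm) = 1 := by rw [normSq_comp, hn1]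
    have h4 : ∀ v : BV R n, 0 ≤ (1 - s) * β := fun _ => mul_nonneg (by linarith) hβ.le
    obtain ⟨Ω', h5, h6⟩ := gap_mono (pJ (L := L) J) (pb g) (pb b) (pb fun v => b v + (1 - s) * β)
      (pJ_nonneg J hJ) (pb_nonneg g hg) (pb_nonneg b hb)
      (fun x => by
        rw [pb_add]
        linarith [pb_nonneg (L := L) (fun _ : BV R n => (1 - s) * β) h4 x]) Δ hΔ _ h3 h2
    refine ⟨Ω' ∘ cfgE e, by rw [normSq_comp, h5], ?_⟩
    rw [ham_boxH hRL]
    exact Pool.Agent.T6.H19.PQ.gapped_mono (gapped_comp _ _ _ _ h6) hpΔ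
  classical
  set Φ : ℝ → (Site L → Fin d) → ℂ := fun s => if s = 0 then Ψ₀ else if s = 1 then Ψ L else
    if hs : s ≤ 1 then (hmid s hs).choose else 0 with hΦ
  have hjoin : Joined p Ψ₀ (Ψ L) := by
    refine ⟨R, fun s _ => boxH e J g (fun v => b v + (1 - s) * β), Φ, hR, ?_, ?_, ?_, ?_⟩
    · rw [hp]
      linarith
    · rw [hΦ]
      simp
    · rw [hΦ]
      simp
    · intro s hs
      have hham : ∑ u, term (boxH e J g (fun v => b v + (1 - s) * β)) u =
          ham (boxH e J g (fun v => b v + (1 - s) * β)) L := rfl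
      have hnormF : ∀ u : Site L, ‖term (fieldH (n := n) R e) u‖ ≤ nJ (fieldH (n := n) R e) :=
        fun u => norm_term _ u
      have hterm : ∀ (r : ℝ) (u : Site L), term (boxH e J g (fun v => b v + (1 - r) * β)) u =
          term (boxH e J g b) u + (((1 - r) * β : ℝ) : ℂ) • term (fieldH R e) u := by
        intro r u
        have h1 : boxH e J g (fun v => b v + (1 - r) * β) =
            boxH e J g b - (-(((1 - r) * β : ℝ) : ℂ)) • fieldH R e := by
          rw [boxH_add, neg_smul, sub_neg_eq_add]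
        rw [h1, Pool.Agent.T6.H19.PQ.term_sub, Pool.Agent.T6.H19.PQ.term_smul, neg_smul, sub_neg_eq_add]
      refine ⟨?_, ?_, ?_⟩
      · by_cases h0 : s = 0
        · rw [hΦ]
          simp only [h0, if_true]
          exact hΨ₀n
        · by_cases h1 : s = 1
          · rw [hΦ]
            simp only [h1, if_true]
            simp [hn1]
          · rw [hΦ]
            simp only [h0, h1, if_false, hs.2, dite_true]
            exact (hmid s hs.2).choose_spec.1
      · rw [hham]
        by_cases h0 : s = 0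
        · subst h0
          rw [hΦ]
          simp only [if_true, sub_zero, one_mul]
          exact hend'
        · by_cases h1 : s = 1
          · subst h1
            rw [hΦ]
            simp only [if_true, sub_self, zero_mul, add_zero, one_ne_zero, if_false]
            exact Pool.Agent.T6.H19.PQ.gapped_mono hgr hpΔ
          · rw [hΦ]
            simp only [h0, h1, if_false, hs.2, dite_true]
            exact (hmid s hs.2).choose_spec.2
      · intro u
        refine ⟨boxH_herm _ _ _ _, ?_, ?_⟩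
        · rw [hterm]
          refine (norm_add_le _ _).trans ?_
          rw [norm_smul, Complex.norm_real, Real.norm_eq_abs]
          have h1 : |(1 - s) * β| ≤ β := by
            rw [abs_mul, abs_of_pos hβ]
            have h2 : |1 - s| ≤ 1 := by
              rw [abs_le]
              constructor
              · linarith [hs.2]
              · linarith [hs.1]
            nlinarith
          have h2 := norm_term (boxH e J g b) u
          have h3 := mul_le_mul h1 (hnormF u) (norm_nonneg _) hβ.le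
          rw [hp]
          linarith
        · intro t ht
          rw [hterm, hterm]
          have h1 : term (boxH e J g b) u + (((1 - s) * β : ℝ) : ℂ) • term (fieldH (n := n) R e) u -
              (term (boxH e J g b) u + (((1 - t) * β : ℝ) : ℂ) • term (fieldH R e) u) =
              (((t - s) * β : ℝ) : ℂ) • term (fieldH R e) u := by
            rw [add_sub_add_left_eq_sub, ← sub_smul]
            congr 1
            push_cast
            ring
          rw [h1, norm_smul, Complex.norm_real, Real.norm_eq_abs, abs_mul, abs_of_pos hβ]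
          have h2 : |t - s| = |s - t| := abs_sub_comm _ _
          rw [h2]
          calc |s - t| * β * ‖term (fieldH (n := n) R e) u‖
              ≤ |s - t| * β * nJ (fieldH (n := n) R e) :=
                mul_le_mul_of_nonneg_left (hnormF u) (by positivity)
            _ = (β * nJ (fieldH (n := n) R e)) * |s - t| := by ring
            _ ≤ p * |s - t| := by
                refine mul_le_mul_of_nonneg_right ?_ (abs_nonneg _)
                rw [hp]
                linarith
  -- the PEPS near the strong field ground state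
  obtain ⟨D, φ, hD, hφ, herr⟩ := hΨ₀p (1 / 4) (by norm_num) (by norm_num)
  have hnr : nr (φ - Ψ₀) ≤ 1 / 4 := by
    have h1 := nr_sq (φ - Ψ₀)
    have h2 := nr_nonneg (φ - Ψ₀)
    nlinarith
  obtain ⟨g1, g2, g3⟩ := near Ψ₀ φ hΨ₀n hnr
  obtain ⟨u1, u2, u3⟩ := unit_of hφ (by linarith : 0 < nr φ)
  let e' : Fin d × Fin 1 ≃ Fin d := Equiv.prodUnique (Fin d) (Fin 1)
  refine ⟨1, d, D, e', fun _ => 1, Ψ₀, Ψ L, ((nr φ)⁻¹ : ℂ) • φ, ?_, ?_, ?_, hjoin, ?_, u1, u2, ?_⟩
  · rw [Nat.cast_one]
    exact Real.one_le_exp hp0.le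
  · unfold normSq
    simp
  · rw [stack_one e' (fun a => rfl), sub_self]
    have h1 : normSq (0 : (Site L → Fin d) → ℂ) = 0 := by
      unfold normSq
      simp
    rw [h1, Real.sqrt_zero]
    positivity
  · refine hD.trans ?_
    rw [Real.rpow_one]
    have h1 : C₁ * ((L : ℝ) / (1 / 4)) = Real.exp (Real.log (4 * C₁) + Real.log L) := by
      rw [Real.exp_add, Real.exp_log (by positivity), Real.exp_log hLpos]
      ring
    rw [h1]
    apply Real.exp_le_exp.2
    rw [hC₂]
    have h2 := le_abs_self (Real.log (4 * C₁))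
    have h3 : |Real.log (4 * C₁)| ≤ |Real.log (4 * C₁)| * Real.log L :=
      le_mul_of_one_le_right (abs_nonneg _) hlog1
    nlinarith
  · rw [u3, le_div_iff₀ (by linarith)]
    have h1 : Real.exp (-(C₂ * Real.log L)) ≤ Real.exp (-1) := by
      apply Real.exp_le_exp.2
      nlinarith
    have h2 : Real.exp (-1 : ℝ) ≤ 1 / 2 := by
      have h3 := Real.exp_neg_one_lt_d9
      linarith
    have h4 : 0 ≤ nr φ := nr_nonneg φ
    have h6 : Real.exp (-(C₂ * Real.log L)) * nr φ ≤ 1 / 2 * (5 / 4) :=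
      mul_le_mul (h1.trans h2) g2 h4 (by norm_num)
    exact h6.trans (le_trans (by norm_num) g3)

theorem pb_mono [NeZero L] (b b' : BV R n → ℝ) (h : ∀ v, b v ≤ b' v) (x : TV L n) :
    pb b x ≤ pb b' x := by
  unfold pb
  refine Finset.sum_le_sum fun u _ => Finset.sum_le_sum fun p _ => ?_
  split_ifs
  · exact h p
  · exact le_rfl

open Pool.Agent.Results.MP_953b23_mp.OverlapBoosting in
/-- the gap of the family for larger fields -/
theorem family_mono (e : Fin d ≃ (Fin n → Fin 2)) (J : BV R n → BV R n → ℝ) (g b b' : BV R n → ℝ)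
    (hJ : ∀ v w, 0 ≤ J v w) (hg : ∀ v, 0 ≤ g v) (hb : ∀ v, 0 ≤ b v) (hbb : ∀ v, b v ≤ b' v) (Δ : ℝ)
    (Ψ : ∀ L : ℕ, (Site L → Fin d) → ℂ) (hF : GappedFamily (boxH e J g b) Δ Ψ) :
    ∃ Ψ' : ∀ L : ℕ, (Site L → Fin d) → ℂ, GappedFamily (boxH e J g b') Δ Ψ' := by
  obtain ⟨L₀, hL₀⟩ := hF.ground
  have key : ∀ (L : ℕ) [NeZero L], max L₀ R ≤ L → ∃ Φ : (Site L → Fin d) → ℂ, normSq Φ = 1 ∧
      IsGappedGround (ham (boxH e J g b') L) Δ Φ := by
    intro L _ hL
    rw [max_le_iff] at hL
    obtain ⟨hn1, hgr⟩ := hL₀ L hL.1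
    have h1 := hgr
    rw [ham_boxH hL.2] at h1
    have h2 := gapped_comp_iff _ _ _ _ h1
    have h3 : normSq (Ψ L ∘ (cfgE (L := L) e).symm) = 1 := by rw [normSq_comp, hn1]
    obtain ⟨Ω', h5, h6⟩ := gap_mono (pJ (L := L) J) (pb g) (pb b) (pb b')
      (pJ_nonneg J hJ) (pb_nonneg g hg) (pb_nonneg b hb) (pb_mono b b' hbb) Δ hF.gap_pos _ h3 h2
    refine ⟨Ω' ∘ cfgE e, by rw [normSq_comp, h5], ?_⟩
    rw [ham_boxH hL.2]
    exact gapped_comp _ _ _ _ h6
  classical
  refine ⟨fun L => if h : ∃ (_ : NeZero L), max L₀ R ≤ L then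
    (@key L h.choose h.choose_spec).choose else 0, hF.range_pos, boxH_herm _ _ _ _, hF.gap_pos,
    max L₀ R, ?_⟩
  intro L i hL
  have h : ∃ (_ : NeZero L), max L₀ R ≤ L := ⟨i, hL⟩
  rw [dif_pos h]
  exact (@key L h.choose h.choose_spec).choose_spec

end Pool.Agent.KS6_99.IS
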