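import Mathlib

/-!
Four copies of one Ising spin: the orthogonal integer basis in which the rotated spin variables and
the spin flips are nonnegative matrices.
-/

set_option autoImplicit false
set_option maxRecDepth 100000

open Finset

namespace Pool.Agent.KS6_99.IS

/-- configurations of four copies of one spin; also the labels of the basis -/
abbrev K : Type := Fin 2 × Fin 2 × Fin 2 × Fin 2

/-- the value of the spin -/
def sg (a : Fin 2) : ℤ := if a = 0 then 1 else -1

/-- the spin of the copy `i` -/
def cp (i : Fin 4) (k : K) : Fin 2 :=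
  if i = 0 then k.1 else if i = 1 then k.2.1 else if i = 2 then k.2.2.1 else k.2.2.2

/-- the other value -/
def ot (a : Fin 2) : Fin 2 := 1 - a

/-- flip the spin of the copy `i` -/
def fl (i : Fin 4) (k : K) : K :=
  (if i = 0 then ot k.1 else k.1, if i = 1 then ot k.2.1 else k.2.1,
    if i = 2 then ot k.2.2.1 else k.2.2.1, if i = 3 then ot k.2.2.2 else k.2.2.2)

/-- the rotated spins -/
def al (k : K) : ℤ := (sg k.1 + sg k.2.1 + sg k.2.2.1 + sg k.2.2.2) / 2
def be (k : K) : ℤ := (sg k.1 + sg k.2.1 - sg k.2.2.1 - sg k.2.2.2) / 2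
def ga (k : K) : ℤ := (sg k.1 - sg k.2.1 + sg k.2.2.1 - sg k.2.2.2) / 2
def de (k : K) : ℤ := (-sg k.1 + sg k.2.1 + sg k.2.2.1 - sg k.2.2.2) / 2

/-- exchange of the copies one and two -/
def sa (k : K) : K := (k.2.1, k.1, k.2.2.1, k.2.2.2)
/-- exchange of the copies three and four -/
def sb (k : K) : K := (k.1, k.2.1, k.2.2.2, k.2.2.1)

/-- the sign of `2` and `-2`, zero otherwise -/
def s2 (z : ℤ) : ℤ := if z = 2 then 1 else if z = -2 then -1 else 0

/-- the basis; for `l.1 = 0` the functions supported on the even configurations of one type, for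
`l.1 = 1` the characters on the odd configurations -/
def B (l k : K) : ℤ :=
  if l.1 = 0 then
    (fun z => if l.2.2.2 = 0 then z * z else z)
      (s2 (if l.2.1 = 0 then (if l.2.2.1 = 0 then al k else be k)
        else (if l.2.2.1 = 0 then ga k else de k)))
  else
    (if al k = 1 ∨ al k = -1 then
      (if l.2.1 = 0 then 1 else al k) * (if l.2.2.1 = 0 then 1 else be k) *
        (if l.2.2.2 = 0 then 1 else ga k) else 0)

/-- the weights: `w l * ∑ k, B l k ^ 2 = 8` -/
def w (l : K) : ℤ := if l.1 = 0 then 4 else 1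

/-- the permutation of the labels which corresponds to the exchange of the copies one and two -/
def pm (l : K) : K :=
  if l.1 = 0 then (0, l.2.1, l.2.2.1 + l.2.1, l.2.2.2)
  else (1, l.2.1 + l.2.2.2, l.2.2.1 + l.2.2.2, l.2.2.2)

/-- the sign of the basis function under both exchanges -/
def ep (l : K) : ℤ :=
  if l.1 = 0 then (if l.2.1 = 1 ∧ l.2.2.2 = 1 then -1 else 1)
  else (if l.2.2.2 = 1 then -1 else 1)

theorem compl (k k' : K) : ∑ l : K, w l * B l k * B l k' = if k = k' then 8 else 0 := by
  revert k k'
  decide +kernel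

theorem orth (l l' : K) : ∑ k : K, B l k * B l' k = if l = l' then (if l.1 = 0 then 2 else 8) else 0 := by
  revert l l'
  decide +kernel

theorem B_sa (l k : K) : B l (sa k) = B (pm l) k := by
  revert l k
  decide +kernel

theorem B_sab (l k : K) : B l (sa (sb k)) = ep l * B l k := by
  revert l k
  decide +kernel

theorem pm_pm (l : K) : pm (pm l) = l := by
  revert l
  decide +kernel

theorem w_pm (l : K) : w (pm l) = w l := by
  revert l
  decide +kernel

theorem ep_cases (l : K) : ep l = 1 ∨ ep l = -1 := by
  revert l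
  decide +kernel

theorem nn_al (l l' : K) : 0 ≤ ∑ k : K, B l k * al k * B l' k := by
  revert l l'
  decide +kernel

theorem nn_be (l l' : K) : 0 ≤ ∑ k : K, B l k * be k * B l' k := by
  revert l l'
  decide +kernel

theorem nn_ga (l l' : K) : 0 ≤ ∑ k : K, B l k * ga k * B l' k := by
  revert l l'
  decide +kernel

theorem nn_de (l l' : K) : 0 ≤ ∑ k : K, B l k * de k * B l' k := by
  revert l l'
  decide +kernel

theorem nn_al2 (l l' : K) : 0 ≤ ∑ k : K, B l k * (al k * al k) * B l' k := by
  revert l l'
  decide +kernel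

theorem nn_be2 (l l' : K) : 0 ≤ ∑ k : K, B l k * (be k * be k) * B l' k := by
  revert l l'
  decide +kernel

theorem nn_ga2 (l l' : K) : 0 ≤ ∑ k : K, B l k * (ga k * ga k) * B l' k := by
  revert l l'
  decide +kernel

theorem nn_de2 (l l' : K) : 0 ≤ ∑ k : K, B l k * (de k * de k) * B l' k := by
  revert l l'
  decide +kernel

theorem nn_fl (l l' : K) : 0 ≤ ∑ k : K, B l k * ∑ i : Fin 4, B l' (fl i k) := by
  revert l l'
  decide +kernel

theorem rot (k k' : K) : ∑ i : Fin 4, sg (cp i k) * sg (cp i k') =
    al k * al k' + be k * be k' + ga k * ga k' + de k * de k' := by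
  revert k k'
  decide +kernel

theorem fld (k : K) : sg k.1 + sg k.2.1 = al k + be k ∧
    sg k.2.2.1 + sg k.2.2.2 = al k - be k := by
  revert k
  decide +kernel

end Pool.Agent.KS6_99.IS
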