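import Pool.Agent.KS6_99.IS.Site

/-!
The tensor products of the basis over a finite set of spins, and the map which replaces the
coefficients of a vector by their absolute values.
-/

set_option autoImplicit false
set_option linter.unusedSectionVars false

open Finset

namespace Pool.Agent.KS6_99.IS

variable {V : Type*} [Fintype V] [DecidableEq V]

/-- the tensor products of the basis functions -/
def BB (l k : V → K) : ℤ := ∏ x, B (l x) (k x)

def W (l : V → K) : ℤ := ∏ x, w (l x)

def EP (l : V → K) : ℤ := ∏ x, ep (l x)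

theorem sum_prod (f : V → K → ℤ) : ∑ k : V → K, ∏ x, f x (k x) = ∏ x, ∑ a, f x a := by
  rw [Finset.prod_univ_sum, Fintype.piFinset_univ]

theorem compl' (k k' : V → K) :
    ∑ l : V → K, W l * BB l k * BB l k' = if k = k' then 8 ^ Fintype.card V else 0 := by
  have h1 : ∀ l : V → K, W l * BB l k * BB l k' =
      ∏ x, (w (l x) * B (l x) (k x) * B (l x) (k' x)) := by
    intro l
    simp only [W, BB, Finset.prod_mul_distrib]
  rw [Finset.sum_congr rfl fun l _ => h1 l,
    sum_prod (fun x a => w a * B a (k x) * B a (k' x))]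
  rw [Finset.prod_congr rfl fun x _ => compl (k x) (k' x)]
  split_ifs with h
  · subst h
    simp
  · obtain ⟨x, hx⟩ : ∃ x, k x ≠ k' x := by
      by_contra hc
      push Not at hc
      exact h (funext hc)
    exact Finset.prod_eq_zero (mem_univ x) (if_neg hx)

theorem orth' (l l' : V → K) (h : l ≠ l') : ∑ k : V → K, BB l k * BB l' k = 0 := by
  have h1 : ∀ k : V → K, BB l k * BB l' k = ∏ x, (B (l x) (k x) * B (l' x) (k x)) := by
    intro k
    simp only [BB, Finset.prod_mul_distrib]
  rw [Finset.sum_congr rfl fun l _ => h1 l,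
    sum_prod (fun x a => B (l x) a * B (l' x) a)]
  obtain ⟨x, hx⟩ : ∃ x, l x ≠ l' x := by
    by_contra hc
    push Not at hc
    exact h (funext hc)
  refine Finset.prod_eq_zero (mem_univ x) ?_
  rw [orth, if_neg hx]

/-- the coefficients -/
noncomputable def co (f : (V → K) → ℂ) (l : V → K) : ℂ :=
  (W l : ℂ) / 8 ^ Fintype.card V * ∑ k, (BB l k : ℂ) * f k

/-- the vector with the absolute values of the coefficients -/
noncomputable def ab (f : (V → K) → ℂ) (k : V → K) : ℝ := ∑ l, ‖co f l‖ * (BB l k : ℝ)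

theorem expand (f : (V → K) → ℂ) (k : V → K) : f k = ∑ l, co f l * (BB l k : ℂ) := by
  have h8 : (8 : ℂ) ^ Fintype.card V ≠ 0 := pow_ne_zero _ (by norm_num)
  have h1 : ∀ l : V → K, co f l * (BB l k : ℂ) =
      ∑ k', f k' * (((W l * BB l k * BB l k' : ℤ) : ℂ) / 8 ^ Fintype.card V) := by
    intro l
    rw [co, mul_assoc, Finset.sum_mul, Finset.mul_sum]
    refine Finset.sum_congr rfl fun k' _ => ?_
    push_cast
    ring
  rw [Finset.sum_congr rfl fun l _ => h1 l, Finset.sum_comm]
  have h2 : ∀ k' : V → K, ∑ l : V → K, f k' * (((W l * BB l k * BB l k' : ℤ) : ℂ) / 8 ^ Fintype.card V) =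
      if k = k' then f k' else 0 := by
    intro k'
    rw [← Finset.mul_sum, ← Finset.sum_div, ← Int.cast_sum, compl']
    split_ifs with h
    · push_cast
      rw [div_self h8, mul_one]
    · simp
  rw [Finset.sum_congr rfl fun k' _ => h2 k']
  simp

/-- the matrix elements in the basis -/
def Gr (M : (V → K) → (V → K) → ℝ) (l l' : V → K) : ℝ :=
  ∑ k, ∑ k', (BB l k : ℝ) * M k k' * (BB l' k' : ℝ)

theorem form_eq (M : (V → K) → (V → K) → ℝ) (f : (V → K) → ℂ) :
    ∑ k, ∑ k', (starRingEnd ℂ) (f k) * (M k k' : ℂ) * f k' =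
      ∑ l, ∑ l', (starRingEnd ℂ) (co f l) * co f l' * (Gr M l l' : ℂ) := by
  have h1 : ∀ k k', (starRingEnd ℂ) (f k) * (M k k' : ℂ) * f k' =
      ∑ l, ∑ l', (starRingEnd ℂ) (co f l) * co f l' *
        ((BB l k : ℂ) * (M k k' : ℂ) * (BB l' k' : ℂ)) := by
    intro k k'
    conv_lhs => rw [expand f k, expand f k']
    rw [map_sum, Finset.sum_mul, Finset.sum_mul]
    refine Finset.sum_congr rfl fun l _ => ?_
    rw [Finset.mul_sum]
    refine Finset.sum_congr rfl fun l' _ => ?_
    rw [map_mul, map_intCast]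
    ring
  simp only [h1]
  rw [Finset.sum_congr rfl fun k _ => Finset.sum_comm]
  rw [Finset.sum_comm]
  refine Finset.sum_congr rfl fun l _ => ?_
  rw [Finset.sum_congr rfl fun k _ => Finset.sum_comm]
  rw [Finset.sum_comm]
  refine Finset.sum_congr rfl fun l' _ => ?_
  unfold Gr
  push_cast
  rw [Finset.mul_sum]
  refine Finset.sum_congr rfl fun k _ => ?_
  rw [Finset.mul_sum]

theorem ab_form (M : (V → K) → (V → K) → ℝ) (f : (V → K) → ℂ) :
    ∑ k, ∑ k', ab f k * M k k' * ab f k' = ∑ l, ∑ l', ‖co f l‖ * ‖co f l'‖ * Gr M l l' := by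
  have h1 : ∀ k k', ab f k * M k k' * ab f k' =
      ∑ l, ∑ l', ‖co f l‖ * ‖co f l'‖ * ((BB l k : ℝ) * M k k' * (BB l' k' : ℝ)) := by
    intro k k'
    unfold ab
    rw [Finset.sum_mul, Finset.sum_mul]
    refine Finset.sum_congr rfl fun l _ => ?_
    rw [Finset.mul_sum]
    refine Finset.sum_congr rfl fun l' _ => ?_
    ring
  simp only [h1]
  rw [Finset.sum_congr rfl fun k _ => Finset.sum_comm]
  rw [Finset.sum_comm]
  refine Finset.sum_congr rfl fun l _ => ?_
  rw [Finset.sum_congr rfl fun k _ => Finset.sum_comm]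
  rw [Finset.sum_comm]
  refine Finset.sum_congr rfl fun l' _ => ?_
  unfold Gr
  rw [Finset.mul_sum]
  refine Finset.sum_congr rfl fun k _ => ?_
  rw [Finset.mul_sum]

/-- passing to the absolute values of the coefficients increases the form of a matrix which is
nonnegative in the basis -/
theorem form_le (M : (V → K) → (V → K) → ℝ) (hM : ∀ l l', 0 ≤ Gr M l l') (f : (V → K) → ℂ) :
    (∑ k, ∑ k', (starRingEnd ℂ) (f k) * (M k k' : ℂ) * f k').re ≤
      ∑ k, ∑ k', ab f k * M k k' * ab f k' := by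
  rw [form_eq, ab_form]
  refine (Complex.re_le_norm _).trans ((norm_sum_le _ _).trans ?_)
  refine Finset.sum_le_sum fun l _ => (norm_sum_le _ _).trans ?_
  refine Finset.sum_le_sum fun l' _ => le_of_eq ?_
  rw [norm_mul, norm_mul, RCLike.norm_conj, Complex.norm_real, Real.norm_eq_abs,
    abs_of_nonneg (hM l l')]

theorem ab_norm (f : (V → K) → ℂ) : ∑ k, ‖f k‖ ^ 2 = ∑ k, ab f k ^ 2 := by
  have hG : ∀ l l' : V → K, l ≠ l' → Gr (fun k k' => if k = k' then 1 else 0) l l' = 0 := by
    intro l l' h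
    unfold Gr
    have := orth' l l' h
    simp only [mul_ite, mul_one, mul_zero, ite_mul, zero_mul, Finset.sum_ite_eq, mem_univ, if_true]
    exact_mod_cast this
  have h1 := form_eq (fun k k' => if k = k' then 1 else 0) f
  have h2 := ab_form (fun k k' => if k = k' then 1 else 0) f
  have h3 : ∑ l, ∑ l', (starRingEnd ℂ) (co f l) * co f l' *
      ((Gr (fun k k' => if k = k' then 1 else 0) l l' : ℝ) : ℂ) =
      ((∑ l, ∑ l', ‖co f l‖ * ‖co f l'‖ * Gr (fun k k' => if k = k' then 1 else 0) l l' : ℝ) : ℂ) := by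
    push_cast
    refine Finset.sum_congr rfl fun l _ => Finset.sum_congr rfl fun l' _ => ?_
    by_cases h : l = l'
    · subst h
      congr 1
      rw [mul_comm, Complex.mul_conj, Complex.normSq_eq_norm_sq]
      push_cast
      ring
    · rw [hG l l' h]
      simp
  rw [← h1, ← h2] at h3
  have h4 : ∑ k, ∑ k', (starRingEnd ℂ) (f k) * (((if k = k' then 1 else 0 : ℝ)) : ℂ) * f k' =
      ((∑ k, ‖f k‖ ^ 2 : ℝ) : ℂ) := by
    push_cast
    refine Finset.sum_congr rfl fun k _ => ?_
    simp only [apply_ite Complex.ofReal, Complex.ofReal_one, Complex.ofReal_zero, mul_ite, mul_one,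
      mul_zero, ite_mul, zero_mul, Finset.sum_ite_eq, mem_univ, if_true]
    rw [mul_comm, Complex.mul_conj, Complex.normSq_eq_norm_sq]
    push_cast
    rfl
  rw [h4] at h3
  have h5 : ∑ k, ∑ k', ab f k * (if k = k' then 1 else 0) * ab f k' = ∑ k, ab f k ^ 2 := by
    refine Finset.sum_congr rfl fun k _ => ?_
    simp only [mul_ite, mul_one, mul_zero, ite_mul, zero_mul, Finset.sum_ite_eq, mem_univ, if_true]
    ring
  rw [h5] at h3
  exact_mod_cast h3

/-! ### Symmetries -/

/-- the permutation of the labels -/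
def PM (l : V → K) : V → K := fun x => pm (l x)

theorem PM_PM (l : V → K) : PM (PM l) = l := funext fun x => pm_pm (l x)

theorem W_PM (l : V → K) : W (PM l) = W l := Finset.prod_congr rfl fun x _ => w_pm (l x)

theorem BB_sa (l k : V → K) : BB l (fun x => sa (k x)) = BB (PM l) k :=
  Finset.prod_congr rfl fun x _ => B_sa (l x) (k x)

theorem BB_sab (l k : V → K) : BB l (fun x => sa (sb (k x))) = EP l * BB l k := by
  unfold BB EP
  rw [← Finset.prod_mul_distrib]
  exact Finset.prod_congr rfl fun x _ => B_sab (l x) (k x)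

theorem EP_cases (l : V → K) : EP l = 1 ∨ EP l = -1 := by
  unfold EP
  refine Finset.prod_induction (fun x => ep (l x)) (fun z => z = 1 ∨ z = -1) ?_ (Or.inl rfl)
    (fun x _ => ep_cases (l x))
  rintro a b (rfl | rfl) (rfl | rfl) <;> simp

theorem sa_sa (k : K) : sa (sa k) = k := rfl

theorem sb_sb (k : K) : sb (sb k) = k := rfl

/-- exchange of the copies one and two -/
def SA (k : V → K) : V → K := fun x => sa (k x)
/-- exchange of the copies three and four -/
def SB (k : V → K) : V → K := fun x => sb (k x)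

/-- the exchanges as permutations -/
def eSA : Equiv.Perm (V → K) := ⟨SA, SA, fun _ => rfl, fun _ => rfl⟩
def eSB : Equiv.Perm (V → K) := ⟨SB, SB, fun _ => rfl, fun _ => rfl⟩

theorem co_PM (f : (V → K) → ℂ) (hf : ∀ k, f (SA k) = -f k) (l : V → K) :
    co f (PM l) = -co f l := by
  unfold co
  rw [W_PM]
  have h1 : ∑ k, (BB (PM l) k : ℂ) * f k = -∑ k, (BB l k : ℂ) * f k := by
    rw [← Finset.sum_neg_distrib, ← Equiv.sum_comp eSA fun k => -((BB l k : ℂ) * f k)]
    refine Finset.sum_congr rfl fun k _ => ?_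
    have h2 : (eSA k : V → K) = SA k := rfl
    rw [h2, hf k, ← BB_sa l k]
    have h3 : (fun x => sa (k x)) = SA k := rfl
    rw [h3]
    ring
  rw [h1]
  ring

theorem co_EP (f : (V → K) → ℂ) (hf : ∀ k, f (SA (SB k)) = -f k) (l : V → K) :
    co f l ≠ 0 → EP l = -1 := by
  intro h
  rcases EP_cases l with h1 | h1
  · exfalso
    apply h
    have h2 : ∑ k, (BB l k : ℂ) * f k = -∑ k, (BB l k : ℂ) * f k := by
      rw [← Finset.sum_neg_distrib, ← Equiv.sum_comp (eSB.trans eSA) fun k => (BB l k : ℂ) * f k]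
      refine Finset.sum_congr rfl fun k _ => ?_
      have h3 : ((eSB.trans eSA) k : V → K) = SA (SB k) := rfl
      have h4 : SA (SB k) = fun x => sa (sb (k x)) := rfl
      rw [h3, hf k, h4, BB_sab l k, h1, one_mul]
      ring
    have h5 : ∑ k, (BB l k : ℂ) * f k = 0 := by
      have h6 : (2 : ℂ) * ∑ k, (BB l k : ℂ) * f k = 0 := by
        linear_combination h2
      simpa using h6
    rw [co, h5, mul_zero]
  · exact h1

theorem ab_SA (f : (V → K) → ℂ) (hf : ∀ k, f (SA k) = -f k) (k : V → K) :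
    ab f (SA k) = ab f k := by
  unfold ab
  have e : Equiv.Perm (V → K) := ⟨PM, PM, PM_PM, PM_PM⟩
  rw [← Equiv.sum_comp (⟨PM, PM, PM_PM, PM_PM⟩ : Equiv.Perm (V → K)) fun l => ‖co f l‖ * (BB l k : ℝ)]
  refine Finset.sum_congr rfl fun l _ => ?_
  have h1 : ((⟨PM, PM, PM_PM, PM_PM⟩ : Equiv.Perm (V → K)) l) = PM l := rfl
  rw [h1, co_PM f hf l, norm_neg, ← BB_sa l k]
  rfl

theorem ab_SAB (f : (V → K) → ℂ) (hf : ∀ k, f (SA (SB k)) = -f k) (k : V → K) :
    ab f (SA (SB k)) = -ab f k := by
  unfold ab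
  rw [← Finset.sum_neg_distrib]
  refine Finset.sum_congr rfl fun l _ => ?_
  have h4 : SA (SB k) = fun x => sa (sb (k x)) := rfl
  rw [h4, BB_sab l k]
  by_cases h : co f l = 0
  · rw [h, norm_zero]
    ring
  · rw [co_EP f hf l h]
    push_cast
    ring

/-- a vector which is odd under the exchange of the copies one and two and even under the exchange
of the copies three and four gives a vector which is odd under the latter exchange -/
theorem ab_SB (f : (V → K) → ℂ) (ha : ∀ k, f (SA k) = -f k) (hb : ∀ k, f (SB k) = f k)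
    (k : V → K) : ab f (SB k) = -ab f k := by
  have h1 : ab f (SA (SB k)) = ab f (SB k) := ab_SA f ha (SB k)
  have h2 : ab f (SA (SB k)) = -ab f k :=
    ab_SAB f (fun k => by rw [ha, hb]) k
  rw [← h1, h2]

end Pool.Agent.KS6_99.IS
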